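import Pool.Agent.H95.INS.Defs
import Pool.Agent.H22.LPP.TargetsB
import Pool.Agent.H97.NF.Defs

/-!
# Part D of MP_57ddd5_pr: norms on annuli, chain over scales. Definitions

Scale `k`: time `64 ^ k`, space `16 ^ k`, weight `4 ^ k`. The centre is the origin
(use `shiftE` for other centres). Deterministic statements are made for an abstract passage
structure `PS`, used for both directions of time.
-/

open MeasureTheory ProbabilityTheory
open scoped ENNReal

namespace Pool.Agent.H76.ND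

open Pool.Agent.H99.NS Pool.Agent.H22.LPP Pool.Agent.H95.INS

/-! ## Passage structures -/

/-- Abstract weights `W s t g` of paths on `(s,t]` and passage times `TT u v`. -/
structure PS where
  /-- weight of the path on the interval -/
  W : ℤ → ℤ → (ℤ → ℤ) → ℝ
  /-- passage time -/
  TT : Site → Site → ℝ
  add : ∀ s r t g, s ≤ r → r ≤ t → W s t g = W s r g + W r t g
  congr : ∀ s t g g', (∀ r, s ≤ r → r ≤ t → g r = g' r) → W s t g = W s t g'
  le : ∀ u v g, u.1 ≤ v.1 → Conn u v g → W u.1 v.1 g ≤ TT u v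
  sup : ∀ u v w, Reach u v → Reach v w → TT u v + TT v w ≤ TT u w

/-- The environment `ω`, time forward. -/
noncomputable def fwd (ω : Env) : PS where
  W := wt ω
  TT := T ω
  add := fun _ _ _ g h1 h2 => wt_add ω h1 h2 g
  congr := fun s t g g' h => wt_congr (fun r h1 h2 => by rw [h r h1.le h2])
  le := fun _ _ _ h1 h2 => le_T ω h1 h2
  sup := fun _ _ _ h1 h2 => T_superadd ω h1 h2

/-- The time reversed path. -/
def rvp (g : ℤ → ℤ) : ℤ → ℤ := fun r => g (-r)

theorem rvp_path {s t : ℤ} {g : ℤ → ℤ} (h : IsPath s t g) : IsPath (-t) (-s) (rvp g) := by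
  intro r h1 h2
  unfold rvp
  have := h (-(r + 1)) (by omega) (by omega)
  rw [show -(r + 1) + 1 = -r by ring] at this
  omega

/-- The environment `ω`, time backward. -/
noncomputable def bwd (ω : Env) : PS where
  W := fun s t g => wt ω (-t) (-s) (rvp g)
  TT := fun u v => T ω (rev v) (rev u)
  add := fun s r t g h1 h2 => by
    have := wt_add ω (s := -t) (m := -r) (t := -s) (by omega) (by omega) (rvp g)
    linarith
  congr := fun s t g g' h => wt_congr (fun r h1 h2 => by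
    unfold rvp; rw [h (-r) (by omega) (by omega)])
  le := fun u v g h1 h2 => by
    refine le_T ω (u := rev v) (v := rev u) (by simp only [rev]; omega) ⟨?_, ?_, ?_⟩
    · exact rvp_path h2.1
    · simp only [rvp, rev, neg_neg]; exact h2.2.2
    · simp only [rvp, rev, neg_neg]; exact h2.2.1
  sup := fun u v w h1 h2 => by
    have := T_superadd ω (reach_rev.2 h2) (reach_rev.2 h1)
    linarith

/-! ## Scales and allowances -/

/-- Half of the time scale `64 ^ i` (for `i ≥ 1`). -/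
def lv (i : ℕ) : ℤ := 32 * 64 ^ (i - 1)

/-- Distance of two scales. -/
def ds (k i : ℕ) : ℕ := max k i - min k i

/-- Allowance at label `i` for the goodness of scale `k`, at lateral distance `D`. -/
noncomputable def al (K0 : ℝ) (k i : ℕ) (D : ℝ) : ℝ :=
  K0 * (101 / 100) ^ ds k i * 4 ^ i * (1 + D / 16 ^ max k i)

/-- Upper bounds on the slab `[s,t]` of label `i` (soft parabola), all paths. -/
def UL (P : PS) (q K0 : ℝ) (k i : ℕ) (s t : ℤ) : Prop :=
  ∀ s' t' g, s ≤ s' → s' ≤ t' → t' ≤ t → IsPath s' t' g →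
    P.W s' t' g ≤ sp q (64 ^ i / 1000) s' t' g + al K0 k i (max |(g s' : ℝ)| |(g t' : ℝ)|)

/-- Lower bounds between the two levels of the slab `[s,t]` of label `i`. -/
def LL (P : PS) (q K0 : ℝ) (Xc : ℤ) (k i : ℕ) (s t : ℤ) : Prop :=
  ∀ x y : ℤ, |x| ≤ Xc * 16 ^ max k i → |y| ≤ Xc * 16 ^ max k i → |x - y| ≤ 16 * Xc * 16 ^ i →
    Reach (s, x) (t, y) →
    par q (s, x) (t, y) - al K0 k i (max |(x : ℝ)| |(y : ℝ)|) ≤ P.TT (s, x) (t, y)

/-- Interior lower bounds in the core slab `[-lv a, lv a]`, vertically down. -/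
def IL (P : PS) (q K0 : ℝ) (Xc : ℤ) (k a : ℕ) : Prop :=
  ∀ u : Site, -lv a ≤ u.1 → u.1 ≤ lv a → |u.2| ≤ Xc * 16 ^ max k a →
    ∃ y, |y - u.2| ≤ 1 ∧ Reach (-lv a, y) u ∧
      mu q * ((u.1 + lv a : ℤ) : ℝ) - al K0 k a |(u.2 : ℝ)| ≤ P.TT (-lv a, y) u

/-- One-sided norms (left slabs `[-lv (i+1), -lv i]`, `a ≤ i ≤ I`, and the core). -/
structure GSide (P : PS) (q K0 : ℝ) (Xc : ℤ) (a I k : ℕ) : Prop where
  u : ∀ i, a ≤ i → i ≤ I → UL P q K0 k i (-lv (i + 1)) (-lv i)
  l : ∀ i, a ≤ i → i ≤ I → LL P q K0 Xc k i (-lv (i + 1)) (-lv i)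
  uc : UL P q K0 k a (-lv a) (lv a)
  lc : LL P q K0 Xc k a (-lv a) (lv a)
  il : IL P q K0 Xc k a

/-- The norm event of label `i` for the goodness of scale `k`; `a` is the core scale, the slabs
of label `i` are `[-lv (i+1), -lv i]`, `[lv i, lv (i+1)]` and for `i = a` also
`[-lv a, lv a]`. -/
structure Nm (q K0 : ℝ) (Xc : ℤ) (a k i : ℕ) (ω : Env) : Prop where
  um : UL (fwd ω) q K0 k i (-lv (i + 1)) (-lv i)
  up : UL (fwd ω) q K0 k i (lv i) (lv (i + 1))
  lm : LL (fwd ω) q K0 Xc k i (-lv (i + 1)) (-lv i)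
  lp : LL (fwd ω) q K0 Xc k i (lv i) (lv (i + 1))
  uc : i = a → UL (fwd ω) q K0 k a (-lv a) (lv a)
  lc : i = a → LL (fwd ω) q K0 Xc k a (-lv a) (lv a)
  il : i = a → IL (fwd ω) q K0 Xc k a
  ir : i = a → IL (bwd ω) q K0 Xc k a

/-- All the norms of the labels between `a` and `I`, for the goodness of scale `k`. -/
def GN (q K0 : ℝ) (Xc : ℤ) (a I k : ℕ) (ω : Env) : Prop :=
  ∀ i, a ≤ i → i ≤ I → Nm q K0 Xc a k i ω

/-- Constants of the multi-scale analysis. -/
structure Cst where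
  /-- parameter of the geometric law -/
  q : ℝ
  /-- threshold of the norms -/
  K0 : ℝ
  /-- regularity of the old environment -/
  K : ℝ
  /-- positions of the old geodesic -/
  B : ℝ
  /-- strength of the highways -/
  H : ℝ
  /-- crude upper bound -/
  Y : ℝ
  /-- half width of the box -/
  A : ℤ

/-- The data of the insertion lemma at scale `k`, lateral cut-off `Xc * 16 ^ k`. -/
noncomputable def dk (c : Cst) (Xc : ℤ) (k : ℕ) : Dat :=
  dat c.q k c.A c.K c.B c.H c.Y (Xc * 16 ^ k)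

/-- Goodness of scale `k` (core scale `a`, labels up to `I`). -/
def good (c : Cst) (Xc : ℤ) (a I k : ℕ) (ω : Env) : Prop :=
  GN c.q c.K0 Xc a I k ω ∧ FC (dk c Xc k) ω

/-! ## Violations inside the box -/

open Classical in
/-- The environment with the weights outside the strip `|x| < R` put to zero. -/
noncomputable def cutE (R : ℤ) (ω : Env) : Env := fun x => if |x.2| < R then ω x else 0

/-- Upper violation inside the box of half width `R`, ends in `|x| < V`, on the slab `[s,t]` of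
label `i`, for the goodness of scale `j`. -/
def VU (q K0 : ℝ) (R V : ℤ) (j i : ℕ) (s t : ℤ) (ω : Env) : Prop :=
  ∃ s' t' g, s ≤ s' ∧ s' ≤ t' ∧ t' ≤ t ∧ IsPath s' t' g ∧ |g s'| < V ∧ |g t'| < V ∧
    sp q (64 ^ i / 1000) s' t' g + al K0 j i (max |(g s' : ℝ)| |(g t' : ℝ)|) <
      wt (cutE R ω) s' t' g

/-- Lower violation inside the box. -/
def VL (q K0 : ℝ) (Xc R V : ℤ) (j i : ℕ) (s t : ℤ) (ω : Env) : Prop :=
  ∃ x y : ℤ, |x| < V ∧ |y| < V ∧ |x - y| ≤ 16 * Xc * 16 ^ i ∧ Reach (s, x) (t, y) ∧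
    T (cutE R ω) (s, x) (t, y) <
      par q (s, x) (t, y) - al K0 j i (max |(x : ℝ)| |(y : ℝ)|)

/-- Interior lower violation in the core slab inside the box. -/
def VI (q K0 : ℝ) (R V : ℤ) (j a : ℕ) (ω : Env) : Prop :=
  ∃ u : Site, -lv a ≤ u.1 ∧ u.1 ≤ lv a ∧ |u.2| < V ∧
    ((∀ y, |y - u.2| ≤ 1 → Reach (-lv a, y) u →
      T (cutE R ω) (-lv a, y) u <
        mu q * ((u.1 + lv a : ℤ) : ℝ) - al K0 j a |(u.2 : ℝ)|) ∨
    (∀ y, |y - u.2| ≤ 1 → Reach u (lv a, y) →
      T (cutE R ω) u (lv a, y) <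
        mu q * ((lv a - u.1 : ℤ) : ℝ) - al K0 j a |(u.2 : ℝ)|))

/-- The violation event of label `i` for scale `j` inside the box of half width `R` with ends in
`|x| < V`. -/
def VV (q K0 : ℝ) (Xc R V : ℤ) (a j i : ℕ) (ω : Env) : Prop :=
  VU q K0 R V j i (-lv (i + 1)) (-lv i) ω ∨ VU q K0 R V j i (lv i) (lv (i + 1)) ω ∨
  VL q K0 Xc R V j i (-lv (i + 1)) (-lv i) ω ∨ VL q K0 Xc R V j i (lv i) (lv (i + 1)) ω ∨
  (i = a ∧ (VU q K0 R V j a (-lv a) (lv a) ω ∨ VL q K0 Xc R V j a (-lv a) (lv a) ω ∨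
    VI q K0 R V j a ω))

/-! ## Path bounds and lower bounds with explicit constants -/

/-- Path bound on the time interval `[lo, hi]` with soft time `dl`, allowance `La` and space
unit `V`; `S` is an upper bound of the displacement which may be larger. -/
def PB3 (P : PS) (q V dl La : ℝ) (lo hi : ℤ) : Prop :=
  ∀ s t g, lo ≤ s → s ≤ t → t ≤ hi → IsPath s t g → ∃ S : ℝ, |((g t - g s : ℤ) : ℝ)| ≤ S ∧
    P.W s t g ≤ mu q * ((t - s : ℤ) : ℝ) - sg q / 2 * S ^ 2 / (((t - s : ℤ) : ℝ) + dl) +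
      La * (1 + (max |(g s : ℝ)| |(g t : ℝ)| + S) / V)

/-- Lower bounds between the levels `s` and `t`. -/
def LB3 (P : PS) (q V E : ℝ) (Xm Dm : ℤ) (s t : ℤ) : Prop :=
  ∀ x y : ℤ, |x| ≤ Xm → |y| ≤ Xm → |x - y| ≤ Dm → Reach (s, x) (t, y) →
    par q (s, x) (t, y) - E * (1 + max |(x : ℝ)| |(y : ℝ)| / V) ≤ P.TT (s, x) (t, y)

end Pool.Agent.H76.ND
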