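import Pool.Agent.H95.ND.Targets
import Pool.Agent.H97.NF.Targets
import Pool.Agent.H97.ST.Defs

/-!
# Part D of MP_57ddd5_pr: targets (helper76), second half

Transversal fluctuations, the tube, crude regularity, moments, one-environment regularity (for
Part E7) and the statement `KK` of Part F.
-/

open MeasureTheory ProbabilityTheory
open scoped ENNReal

namespace Pool.Agent.H76.ND

set_option linter.unusedVariables false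

open Pool.Agent.H99.NS Pool.Agent.H22.LPP Pool.Agent.H95.INS
open Pool.Agent.H97.NF (PEnv eA eB PN glue ff Infx domN tile kbox rk quad OnGeo)
open Pool.Agent.H95.ND (Sml I_N PK JCs goodAt zc win Xf RGG PALMs)

/-! ## Transversal fluctuations and the tube -/

/-- Lower tail (input). -/
def I_LT (q : ℝ) : Prop := ∃ A c : ℝ, 0 < A ∧ 0 < c ∧ LT1 q A c (3 / 2)

/-- Transversal fluctuations of the geodesics whose end points have displacement at most a third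
of the threshold. -/
def T_TFG : Prop := ∀ q : ℝ, 0 < q → q < 1 → I_LT q → ∃ C c : ℝ, 0 < C ∧ 0 < c ∧
  ∀ u v : Site, Reach u v → u.1 < v.1 → |dx u v| ≤ dt u v ^ (3 / 4 : ℝ) → ∀ z : ℝ, 0 ≤ z →
    3 * |dx u v| ≤ z * dt u v ^ (2 / 3 : ℝ) →
    (PE q).real {ω | ∃ (g : ℤ → ℤ) (r : ℤ), Geod ω u v g ∧ u.1 ≤ r ∧ r ≤ v.1 ∧
      z * dt u v ^ (2 / 3 : ℝ) ≤ |((g r - u.2 : ℤ) : ℝ)|} ≤ C * Real.exp (-(c * z ^ 2))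

/-- Chord points. -/
def T_CHP : Prop := ∀ (q : ℝ) (u v : Site) (m : ℕ), 0 < q → q < 1 → Reach u v → 1 ≤ m →
  50 * (m : ℝ) ≤ dt u v → ∃ p : ℕ → Site, p 0 = u ∧ p m = v ∧
    (∀ i < m, Reach (p i) (p (i + 1)) ∧ dt u v / m - 1 ≤ dt (p i) (p (i + 1)) ∧
      dt (p i) (p (i + 1)) ≤ dt u v / m + 1 ∧
      |dx (p i) (p (i + 1)) - dx u v * dt (p i) (p (i + 1)) / dt u v| ≤ 2) ∧
    (∀ i ≤ m, |((p i).2 : ℝ)| ≤ max |(u.2 : ℝ)| |(v.2 : ℝ)| + 1) ∧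
    par q u v - 3 * sg q * m ^ 2 / dt u v ≤
      ∑ i ∈ Finset.range m, par q (p i) (p (i + 1))

/-- Passage times restricted to a strip. -/
def T_RST : Prop := ∀ (ω : Env) (R : ℤ) (m : ℕ) (p : ℕ → Site),
  (∀ i < m, Reach (p i) (p (i + 1))) →
  (∀ i < m, ∃ g, Geod ω (p i) (p (i + 1)) g ∧ ∀ r, (p i).1 < r → r ≤ (p (i + 1)).1 → |g r| < R) →
  ∑ i ∈ Finset.range m, T ω (p i) (p (i + 1)) ≤ T (cutE R ω) (p 0) (p m)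

/-- Sum of the losses of independent blocks. -/
def T_CHN : Prop := ∀ q A c : ℝ, 0 < q → q < 1 → 0 < A → 0 < c → LT1 q A c (3 / 2) →
  ∃ C : ℝ, 0 < C ∧ ∀ (m : ℕ) (p : ℕ → Site) (h : ℝ), 0 < h →
    (∀ i < m, Reach (p i) (p (i + 1)) ∧ (p i).1 < (p (i + 1)).1 ∧
      |dx (p i) (p (i + 1))| ≤ dt (p i) (p (i + 1)) ^ (3 / 4 : ℝ) ∧ dt (p i) (p (i + 1)) ≤ h) →
    ∀ y : ℝ, (PE q).real {ω | y * h ^ (1 / 3 : ℝ) ≤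
      ∑ i ∈ Finset.range m, (par q (p i) (p (i + 1)) - T ω (p i) (p (i + 1)))} ≤
      Real.exp (C * m - y)

/-- The one-point lower tail in a strip of half width `R`. -/
def T_TUB : Prop := ∀ q : ℝ, 0 < q → q < 1 → I_LT q → ∃ A c : ℝ, 0 < A ∧ 0 < c ∧
  ∀ (R : ℤ) (u v : Site), Reach u v → u.1 < v.1 → |dx u v| ≤ dt u v ^ (3 / 4 : ℝ) →
    16 * dt u v ^ (2 / 3 : ℝ) ≤ R → 16 * |(u.2 : ℝ)| ≤ R → 16 * |(v.2 : ℝ)| ≤ R →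
    ∀ x : ℝ, 0 ≤ x →
    (PE q).real {ω | T (cutE R ω) u v ≤ par q u v - x * dt u v ^ (1 / 3 : ℝ)} ≤
      A * Real.exp (-(c * x ^ (3 / 2 : ℝ)))

/-- The geodesic does not go far away. -/
def T_TOP : Prop := ∀ q : ℝ, 0 < q → q < 1 → I_LT q → ∃ C c : ℝ, 0 < C ∧ 0 < c ∧
  ∀ o e : Site, Reach o e → o.1 < e.1 → |dx o e| ≤ dt o e ^ (2 / 3 : ℝ) → ∀ x : ℝ, 0 ≤ x →
    PE q {ω | ∃ (g : ℤ → ℤ) (r : ℤ), Geod ω o e g ∧ o.1 ≤ r ∧ r ≤ e.1 ∧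
      x * dt o e ^ (2 / 3 : ℝ) ≤ |((g r - o.2 : ℤ) : ℝ)|} ≤
      ENNReal.ofReal (C * Real.exp (-(c * x ^ 2)))

/-- The inputs `I_TOP` of Part E7 and of the probabilistic half of Part D. -/
def T_ITP : Prop := ∀ q : ℝ, 0 < q → q < 1 → I_LT q →
  Pool.Agent.H97.ST.I_TOP q ∧ Pool.Agent.H95.ND.I_TOP q

/-! ## Norms -/

/-- Probability of the norms of all labels. -/
def T_PGN : Prop := ∀ q : ℝ, 0 < q → q < 1 → I_N q → ∃ C c s : ℝ, 0 < C ∧ 0 < c ∧ 0 < s ∧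
  ∀ (K0 : ℝ) (Xc : ℤ) (a I k : ℕ), 1 ≤ K0 → 16 ≤ Xc → Sml Xc a → 1 ≤ a →
    a ≤ k → PE q {ω | ¬ GN q K0 Xc a I k ω} ≤ ENNReal.ofReal (C * Real.exp (-(c * K0 ^ s)))

/-- Measurability and dependence of goodness. -/
def T_MEG : Prop := ∀ (D : Dat) (o e : Site), Reach o e → 0 ≤ D.n →
  (∃ S : Set Site, S.Finite ∧ DepOn S (fun out => RF D out o e)) ∧
  (∃ S : Set Site, S.Finite ∧ DepOn S (fun out => Good D out o e)) ∧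
  MeasurableSet {out | RF D out o e} ∧ MeasurableSet {out | Good D out o e} ∧
  (∀ out out' : Env, Agree D out out' →
    (FC D out ↔ FC D out') ∧ (RF D out o e ↔ RF D out' o e) ∧
    (Good D out o e ↔ Good D out' o e))

/-! ## Crude regularity -/

/-- The lateral cut-off. -/
noncomputable def Xn (c0 : ℝ) (N : ℕ) : ℤ := ⌊(N : ℝ) ^ (c0 / 50)⌋

/-- Properties of the lateral cut-off. -/
def T_CHX : Prop := ∀ c0 R : ℝ, 0 < c0 → c0 ≤ 1 → ∃ N0 : ℕ, ∀ N a : ℕ, N0 ≤ N →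
  (N : ℝ) ^ c0 ≤ 64 ^ a → 1 ≤ a ∧ R ≤ a ∧ R ≤ Xn c0 N ∧ 16 ≤ Xn c0 N ∧ 4 * Xn c0 N ≤ 4 ^ a ∧
    Sml (Xn c0 N) a

/-- Crude regularity of the environment seen from `o`. -/
def Crd (q c0 : ℝ) (o : Site) (N : ℕ) (ω : Env) : Prop := CR q 2 (c0 / 100) N (shiftE o ω)

/-- Standard end points. -/
structure EP (o e : Site) (N : ℕ) : Prop where
  n : e.1 - o.1 = N
  d : |dx o e| ≤ (N : ℝ) ^ (2 / 3 : ℝ)
  r : Reach o e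
  ev : Even (o.1 + o.2)

/-- Probability of crude regularity. -/
def T_PCR : Prop := ∀ q c0 : ℝ, 0 < q → q < 1 → 0 < c0 → c0 ≤ 1 → ∃ C c : ℝ, 0 < C ∧
  0 < c ∧ ∀ (o : Site) (N : ℕ), 1 ≤ N →
    PE q {ω | ¬ Crd q c0 o N ω} ≤ ENNReal.ofReal (C * Real.exp (-(N : ℝ) ^ c))

/-- All displacements at the scales at least `a` are moderate. -/
def Rlx (Xc : ℤ) (a : ℕ) (o e : Site) (g : ℤ → ℤ) : Prop := ∀ (s t : ℤ) (i : ℕ), a ≤ i →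
  o.1 ≤ s → s ≤ e.1 → o.1 ≤ t → t ≤ e.1 → |t - s| ≤ 33 * 64 ^ i →
  2 * |g t - g s| ≤ Xc * 16 ^ i

/-- Crude regularity of near geodesics. -/
def T_RGA : Prop := ∀ q c0 G : ℝ, 0 < q → q < 1 → 0 < c0 → c0 ≤ 1 → 0 ≤ G →
  ∃ N0 : ℕ, ∀ (N : ℕ) (o e : Site) (ω : Env) (a : ℕ), N0 ≤ N → EP o e N → Crd q c0 o N ω →
    (N : ℝ) ^ c0 ≤ 64 ^ a → 64 ^ a ≤ N → ∀ g, Near ω o e (G * 4 ^ a) g → Rlx (Xn c0 N) a o e g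

/-- Crude regularity around a centre. -/
def T_RGS : Prop := ∀ (Xc : ℤ) (a I : ℕ) (o e z : Site) (t1 : ℤ) (g : ℤ → ℤ), 1 ≤ a → a ≤ I →
  Rlx Xc a o e g → o.1 + lv (I + 1) ≤ z.1 → z.1 + lv (I + 1) ≤ e.1 → -lv a ≤ t1 → t1 ≤ lv a →
  RG Xc a I t1 (fun r => g (r + z.1) - z.2)

/-- The global condition of the insertion lemma holds on crude regularity. -/
def T_RRB : Prop := ∀ (q c0 : ℝ) (c : Cst), 0 < q → q < 1 → 0 < c0 → c0 ≤ 1 →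
  c.q = q → 0 ≤ c.H → ∃ N0 : ℕ, ∀ (N : ℕ) (o e z : Site) (ω : Env) (k : ℕ), N0 ≤ N →
    EP o e N → Crd q c0 o N ω → (N : ℝ) ^ c0 ≤ 64 ^ k → 64 ^ k ≤ N → o.1 + lv k ≤ z.1 →
    z.1 + lv k ≤ e.1 → RR (dk c (Xn c0 N) k) (shiftE z ω) (o - z) (e - z)

/-- Probability of the global Fubini condition. -/
def T_RFA : Prop := ∀ (q c0 : ℝ) (c : Cst) (p₀ : ℝ≥0∞), 0 < q → q < 1 →
  0 < c0 → c0 ≤ 1 → c.q = q → 0 ≤ c.H → 0 < p₀ → ∃ (C c' : ℝ) (N0 : ℕ), 0 < C ∧ 0 < c' ∧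
    ∀ (N : ℕ) (o e z : Site) (k : ℕ), N0 ≤ N → EP o e N → (N : ℝ) ^ c0 ≤ 64 ^ k →
    64 ^ k ≤ N → o.1 + lv k ≤ z.1 → z.1 + lv k ≤ e.1 → p₀ ≤ pH (dk c (Xn c0 N) k) →
    PE q {ω | ¬ RF (dk c (Xn c0 N) k) (shiftE z ω) (o - z) (e - z)} ≤
      ENNReal.ofReal (C * Real.exp (-(N : ℝ) ^ c'))

/-- The input `I_RG` of the probabilistic half of Part D. -/
def T_IRN : Prop := ∀ q : ℝ, 0 < q → q < 1 → Pool.Agent.H95.ND.I_RG q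

/-! ## Transversal fluctuations near an end point -/

/-- Largest displacement of the geodesics up to the distance `lv (b + 1)` from an end point. -/
def T_TFL : Prop := ∀ q c0 : ℝ, 0 < q → q < 1 → 0 < c0 → c0 ≤ 1 → I_LT q → I_N q →
  ∃ (C c s : ℝ) (N0 : ℕ), 0 < C ∧ 0 < c ∧ 0 < s ∧
  ∀ (N : ℕ) (o e : Site) (b : ℕ), N0 ≤ N → EP o e N → (N : ℝ) ^ c0 ≤ 64 ^ b → ∀ x : ℝ, 0 ≤ x →
    PE q {ω | ∃ (g : ℤ → ℤ) (r : ℤ), Geod ω o e g ∧ o.1 ≤ r ∧ r ≤ e.1 ∧ r ≤ o.1 + lv (b + 1) ∧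
      x * 16 ^ b ≤ |((g r - o.2 : ℤ) : ℝ)|} ≤
        ENNReal.ofReal (C * Real.exp (-(c * x ^ s)) + C * Real.exp (-(N : ℝ) ^ c)) ∧
    PE q {ω | ∃ (g : ℤ → ℤ) (r : ℤ), Geod ω o e g ∧ o.1 ≤ r ∧ r ≤ e.1 ∧ e.1 - lv (b + 1) ≤ r ∧
      x * 16 ^ b ≤ |((g r - e.2 : ℤ) : ℝ)|} ≤
        ENNReal.ofReal (C * Real.exp (-(c * x ^ s)) + C * Real.exp (-(N : ℝ) ^ c))

/-- Two environments which agree far from an end point: deterministic bound at the end point.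
`P` is the direction of time towards the end point, which is the centre. -/
def T_DEP2 : Prop := ∀ q : ℝ, 0 < q → q < 1 → ∃ C : ℝ, 0 < C ∧
  ∀ (P P' : PS) (K0 x : ℝ) (Xc : ℤ) (b : ℕ) (g : ℤ → ℤ), 1 ≤ K0 → 1 ≤ x → 16 ≤ Xc →
    4 * Xc ≤ 4 ^ b → 1 ≤ b → GSide P q K0 Xc b b b → GSide P' q K0 Xc b b b →
    IsPath (-lv (b + 1)) 0 g → g 0 = 0 → |(g (-lv (b + 1)) : ℝ)| ≤ x * 16 ^ b →
    2 * |g (-lv (b + 1))| ≤ Xc * 16 ^ b →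
    P.W (-lv (b + 1)) 0 g ≤ P'.TT (-lv (b + 1), g (-lv (b + 1))) (0, 0) +
      C * (K0 + x) ^ 2 * 4 ^ b

/-- Tail of the effect of a change near an end point. -/
def T_DFT : Prop := ∀ q c0 : ℝ, 0 < q → q < 1 → 0 < c0 → c0 ≤ 1 → I_LT q → I_N q →
  ∃ (C c s : ℝ) (N0 : ℕ), 0 < C ∧ 0 < c ∧ 0 < s ∧
  ∀ (N : ℕ) (o e : Site) (b : ℕ) (Q : Set Site), N0 ≤ N → EP o e N → (N : ℝ) ^ c0 ≤ 64 ^ b →
    64 ^ b ≤ N → ((∀ x ∈ Q, x.1 ≤ o.1 + lv (b + 2)) ∨ (∀ x ∈ Q, e.1 - lv (b + 2) < x.1)) →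
    ∀ (Ω : Type) [MeasurableSpace Ω] (μ : Measure Ω) [IsProbabilityMeasure μ] (X X' : Ω → Env),
    MeasurePreserving X μ (PE q) → MeasurePreserving X' μ (PE q) →
    (∀ p, ∀ x ∉ Q, X p x = X' p x) → ∀ y : ℝ, 0 ≤ y →
    μ {p | y * 4 ^ b ≤ |T (X p) o e - T (X' p) o e|} ≤
      ENNReal.ofReal (C * Real.exp (-(c * y ^ s)) + C * Real.exp (-(N : ℝ) ^ c))

/-- Crude moments. -/
def T_CRM : Prop := ∀ q : ℝ, 0 < q → q < 1 → ∃ C : ℝ, 0 < C ∧ ∀ (N : ℕ) (o e : Site), 1 ≤ N →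
  e.1 - o.1 = N → Reach o e →
  ∫⁻ ω, ENNReal.ofReal (T ω o e ^ 8) ∂(PE q) ≤ ENNReal.ofReal (C * (N : ℝ) ^ 16)

/-- Fourth moment of the effect of a change near an end point. -/
def T_MOM : Prop := ∀ q c0 : ℝ, 0 < q → q < 1 → 0 < c0 → c0 ≤ 1 → I_LT q → I_N q →
  ∃ (C : ℝ) (N0 : ℕ), 0 < C ∧
  ∀ (N : ℕ) (o e : Site) (b : ℕ) (Q : Set Site), N0 ≤ N → EP o e N → (N : ℝ) ^ c0 ≤ 64 ^ b →
    64 ^ b ≤ N → ((∀ x ∈ Q, x.1 ≤ o.1 + lv (b + 2)) ∨ (∀ x ∈ Q, e.1 - lv (b + 2) < x.1)) →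
    ∀ (Ω : Type) [MeasurableSpace Ω] (μ : Measure Ω) [IsProbabilityMeasure μ] (X X' : Ω → Env),
    MeasurePreserving X μ (PE q) → MeasurePreserving X' μ (PE q) →
    (∀ p, ∀ x ∉ Q, X p x = X' p x) →
    ∫⁻ p, ENNReal.ofReal (|T (X p) o e - T (X' p) o e| ^ 4) ∂μ ≤ ENNReal.ofReal (C * 256 ^ b)

/-! ## Regularity of one environment (for Part E7) -/

open Pool.Agent.H97.ST (oK eK Lk I_REG)

/-- The window of the geodesic of the local problem has a good scale. -/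
def NG1 (c : Cst) (M : ℝ) : Prop := ∃ (C : ℝ) (K₁ : ℕ), 0 < C ∧ ∀ (K a m : ℕ), K₁ ≤ K →
  K ≤ 40 * a → a + 2 * m + 2 ≤ K → ∀ j : ℤ, |j| ≤ 20 * 64 ^ (K - 1) →
    PE c.q {ω | ∀ i, a ≤ i → i ≤ a + m →
      ¬ goodAt c (Xf K) a (K - 2) i (zc j a (Lk K ω j / 16 ^ a)) ω} ≤
      ENNReal.ofReal (C * Real.exp (-(M * m)))

/-- From PALM (with `β = 0`) to the existence of a good scale. -/
def T_NG1 : Prop := ∀ (c : Cst) (M : ℝ), 0 < M → 1 ≤ c.A → PALMs c M → NG1 c M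

/-- Rerouting below the core through a given point (deterministic). -/
def T_RLO : Prop := ∀ q : ℝ, 0 < q → q < 1 → ∃ C : ℝ, 0 < C ∧
  ∀ (P : PS) (K0 : ℝ) (Xc : ℤ) (a I k : ℕ) (v : ℤ) (g : ℤ → ℤ), 1 ≤ K0 → 64 ≤ Xc →
    4 * Xc ≤ 4 ^ a → 1 ≤ a → a ≤ k → a + 1 ≤ I → GSide P q K0 Xc a I k →
    IsPath (-lv (a + 2)) 0 g → |(g 0 : ℝ)| ≤ 8 * 16 ^ k →
    2 * |g (-lv (a + 2)) - g 0| ≤ Xc * 16 ^ (a + 1) → |v - g 0| ≤ 2 * 16 ^ (a + 1) →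
    Reach (-lv (a + 2), g (-lv (a + 2))) (-lv (a + 1), v) → Reach (-lv (a + 1), v) (0, g 0) →
    P.W (-lv (a + 2)) 0 g ≤
      P.TT (-lv (a + 2), g (-lv (a + 2))) (-lv (a + 1), v) + P.TT (-lv (a + 1), v) (0, g 0) +
      C * (K0 * (101 / 100) ^ (k - a) +
        |((g (-lv (a + 2)) - g 0 : ℤ) : ℝ)| / 16 ^ a) ^ 2 * 4 ^ a

/-- Confinement of optimal paths (deterministic). -/
def T_CNC : Prop := ∀ q : ℝ, 0 < q → q < 1 → ∃ C : ℝ, 0 < C ∧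
  ∀ (P : PS) (K0 : ℝ) (Xc : ℤ) (a k : ℕ) (g : ℤ → ℤ), 1 ≤ K0 → 64 ≤ Xc → 4 * Xc ≤ 4 ^ a →
    1 ≤ a → a ≤ k →
    PB3 P q (16 ^ k) (3 / 1000 * 64 ^ a) (4 * K0 * (101 / 100) ^ (k - a) * 4 ^ a)
      (-lv (a + 1)) (lv (a + 1)) →
    IL P q K0 Xc k a → LL P q K0 Xc k a (-lv (a + 1)) (-lv a) → NO P 0 (-lv (a + 1)) 0 g →
    |(g 0 : ℝ)| ≤ 8 * 16 ^ k → |g (-lv (a + 1)) - g 0| ≤ 2 * 16 ^ (a + 1) →
    ∀ r, -lv (a + 1) ≤ r → r ≤ 0 →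
      |((g r - g 0 : ℤ) : ℝ)| ≤ C * K0 * (101 / 100) ^ (k - a) * 16 ^ a

/-- Regularity of the local problem of scale `k'` on a good scale `k` (deterministic). -/
def T_RDT : Prop := ∀ q : ℝ, 0 < q → q < 1 → ∃ C : ℝ, 0 < C ∧
  ∀ (K0 x : ℝ) (Xc : ℤ) (k' a k : ℕ) (j : ℤ) (ω : Env) (h : ℕ), 1 ≤ K0 → 1 ≤ x → 64 ≤ Xc →
    4 * Xc ≤ 4 ^ a → 1 ≤ a → a ≤ k → a + 3 ≤ k' → |j| ≤ 20 * 64 ^ (k' - 1) →
    RGG Xc a (-lv k') (lv k') (Lk k' ω) →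
    (∀ t, |(Lk k' ω t : ℝ)| ≤ x * 16 ^ k') →
    C * (K0 * (101 / 100) ^ (k - a) + x * (3 / 8) ^ (k' - a)) ^ 2 ≤ 2 ^ h →
    GN q K0 Xc a (k' - 2) k (shiftE (zc j a (Lk k' ω j / 16 ^ a)) ω) →
    Pool.Agent.H97.ST.Rdis k' ω j a h ∧ Pool.Agent.H97.ST.RLow k' ω j (a + 1) h ∧
    Pool.Agent.H97.ST.RUp k' ω j (a + 1) h

/-- The input `I_REG` of Part E7. -/
def T_IRG : Prop := ∀ q : ℝ, 0 < q → q < 1 → Pool.Agent.H95.ND.I_RG q →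
  Pool.Agent.H95.ND.I_TOP q →
  (∃ (c : Cst) (M : ℝ), c.q = q ∧ 1 ≤ c.K0 ∧ 60 ≤ M ∧ NG1 c M) → I_REG q

/-- The input `I_PALM` of Part E7. -/
def T_IPL : Prop := ∀ q : ℝ, 0 < q → q < 1 → Pool.Agent.H95.ND.I_TOP q →
  (∃ (c : Cst) (M : ℝ), c.q = q ∧ 200 ≤ c.A ∧ 10 ≤ M ∧ PALMs c M) →
  Pool.Agent.H97.ST.I_PALM q

/-! ## The statement `KK` -/

/-- Centre of a tile. -/
def cen (a : ℕ) (z : ℤ × ℤ) : Site := (64 ^ a * z.1, 16 ^ a * z.2)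

/-- The four environments. -/
noncomputable def X4 (Q : Set Site) (l : Fin 4) (F : PEnv × PEnv) : Env :=
  if l = 0 then eA F.1 else if l = 1 then eA (glue Q F.1 F.2) else
    if l = 2 then eB F.1 else eB (glue Q F.1 F.2)

/-- Joint goodness of the scale `k` at the tile `z`. -/
def JQ (c : Cst) (Xc : ℤ) (a I k : ℕ) (z : ℤ × ℤ) (F : PEnv × PEnv) : Prop :=
  ∀ l, good c Xc a I k (shiftE (cen a z) (X4 (tile a z) l F))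

/-- The upper end point. -/
def eN (n : ℕ) : Site := (2 * n, 0)

/-- Goodness of the outside of the box of scale `k` around the tile `z`. -/
def GdA (c : Cst) (Xc : ℤ) (a n k : ℕ) (z : ℤ × ℤ) (ω : Env) : Prop :=
  Good (dk c Xc k) (shiftE (cen a z) ω) ((0, 0) - cen a z) (eN n - cen a z)

/-- `k` is the first jointly good scale and the outside is good for both environments. -/
def GK (c : Cst) (Xc : ℤ) (a I n k : ℕ) (z : ℤ × ℤ) (F : PEnv × PEnv) : Prop :=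
  JQ c Xc a I k z F ∧ (∀ j, a ≤ j → j < k → ¬ JQ c Xc a I j z F) ∧
    GdA c Xc a n k z (eA F.1) ∧ GdA c Xc a n k z (eB F.1)

/-- The overlap estimate for given data. -/
def OVc (κ c₁ : ℝ) (k : ℕ) (D : Dat) : Prop :=
  ∀ (out out' : Env) (o e : Site) (r : ℝ), Ends D o e → Good D out o e → Good D out' o e →
    0 ≤ r → r ≤ κ * (1 / 4) ^ k →
    c₁ * 64 ^ k ≤ ∑ j ∈ Finset.Ioc (-(2 * D.n)) (2 * D.n),
      (PN D.q (fun _ => r)).real {E |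
        |Lam (splice (Bx D) (eA E) out) o e j| < D.A * D.w ∧
        Lam (splice (Bx D) (eA E) out) o e j = Lam (splice (Bx D) (eB E) out') o e j}

/-- INPUT (helper95, from Part C): the overlap theorem, with the lower bound of `pH`. -/
def I_OVL (q : ℝ) : Prop := ∀ K B ε' : ℝ, 0 ≤ K → 0 ≤ B → 0 < ε' →
  ∃ (A : ℤ) (H Y κ c₁ : ℝ) (p₀ : ℝ≥0∞) (k₀ : ℕ),
  40 ≤ A ∧ 0 < p₀ ∧ 1 ≤ k₀ ∧ 0 < κ ∧ κ ≤ 1 ∧ 0 < c₁ ∧ ∀ (k : ℕ) (X : ℤ), k₀ ≤ k →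
  16 * A * 16 ^ k ≤ X → X + A * 16 ^ k ≤ 32 * 64 ^ k →
  let D := dat q k A K B H Y X
  D.Ok ∧ p₀ ≤ pH D ∧ PE q {out | ¬ FC D out} ≤ ENNReal.ofReal ε' ∧
  (∀ (out : Env) (o e : Site), Ends D o e → Good D out o e →
    p₀ ≤ Pin D out (fun ω => |Lam ω o e 0| < D.A * D.w)) ∧ OVc κ c₁ k D

/-- A choice of all constants. -/
structure CstOK (q M Cg : ℝ) (c : Cst) (κ c₁ : ℝ) (p₀ : ℝ≥0∞) (k₀ : ℕ) : Prop where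
  pk : ∃ δ, PK q δ Cg c k₀ p₀
  k0 : 1 ≤ k₀
  κ0 : 0 < κ
  κ1 : κ ≤ 1
  c1 : 0 < c₁
  jc : JCs c 4 M k₀
  ov : ∀ (Xc : ℤ) (k : ℕ), k₀ ≤ k → 16 * c.A ≤ Xc → Xc + c.A ≤ 32 * 4 ^ k →
    OVc κ c₁ k (dk c Xc k)

/-- Existence of the constants. -/
def T_CST : Prop := ∀ q M Cg : ℝ, 0 < q → q < 1 → 0 ≤ M → 1 ≤ Cg → I_N q →
  Pool.Agent.H95.ND.I_V q → I_OVL q →
  ∃ (c : Cst) (κ c₁ : ℝ) (p₀ : ℝ≥0∞) (k₀ : ℕ), CstOK q M Cg c κ c₁ p₀ k₀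

/-- Probability that `k` is the first jointly good scale. -/
def T_KG3 : Prop := ∀ (q M : ℝ) (c : Cst) (Xc : ℤ) (k₀ a I n k : ℕ) (z : ℤ × ℤ)
  (ρ : Site → ℝ), 0 < q → q < 1 → c.q = q → JCs c 4 M k₀ → 16 * c.A ≤ Xc → Sml Xc a →
  k₀ ≤ a → 1 ≤ a → a ≤ k → k ≤ I → 4 ≤ c.A →
  ((PN q ρ).prod (PN q ρ)) {F | GK c Xc a I n k z F} ≤
    ENNReal.ofReal (4 * Real.exp (-(M * ((k : ℝ) - a)))) *
      PN q ρ {E | GdA c Xc a n k z (eA E) ∧ GdA c Xc a n k z (eB E)}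

open Classical in
/-- From good outsides to influences. -/
def T_KG4 : Prop := ∀ (q κ c₁ : ℝ) (c : Cst) (Xc : ℤ) (a n k : ℕ) (z : ℤ × ℤ)
  (ρ : Site → ℝ), 0 < q → q < 1 → c.q = q → 0 < κ → κ ≤ 1 → 1 ≤ a → a ≤ k → 4 ≤ c.A →
  (dk c Xc k).Ok → OVc κ c₁ k (dk c Xc k) → lv (k + 1) ≤ 64 ^ a * z.1 →
  64 ^ a * z.1 + lv (k + 1) ≤ 2 * n → (∀ x, rk κ k ≤ ρ x ∧ ρ x ≤ 1) →
  c₁ * 64 ^ k * (PN q ρ).real {E | GdA c Xc a n k z (eA E) ∧ GdA c Xc a n k z (eB E)} ≤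
    2 / (q * (1 - q)) * ∑ x ∈ (domN n).filter (fun x => x ∈ kbox c.A a z k),
      Infx q n (fun _ => rk κ k) x

/-- The path, seen from the tile. -/
def sh (a : ℕ) (z : ℤ × ℤ) (g : ℤ → ℤ) : ℤ → ℤ := fun r => g (r + (cen a z).1) - (cen a z).2

/-- Some geodesic of the environment `ω` passes through the tile. -/
def Tch (a n : ℕ) (z : ℤ × ℤ) (ω : Env) : Prop :=
  ∃ (g : ℤ → ℤ) (r : ℤ), Near ω (0, 0) (eN n) 0 g ∧ 0 < r ∧ r ≤ 2 * n ∧ (r, g r) ∈ tile a z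

/-- Regularity of the four environments around the tile. -/
structure RegF (c : Cst) (Xc : ℤ) (a I m n : ℕ) (z : ℤ × ℤ) (F : PEnv × PEnv) : Prop where
  rx : ∀ l g, Near (X4 (tile a z) l F) (0, 0) (eN n) 0 g → Rlx Xc a (0, 0) (eN n) g
  rf : ∀ k, a ≤ k → k ≤ I →
    RF (dk c Xc k) (shiftE (cen a z) (eA F.1)) ((0, 0) - cen a z) (eN n - cen a z) ∧
    RF (dk c Xc k) (shiftE (cen a z) (eB F.1)) ((0, 0) - cen a z) (eN n - cen a z)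
  dt : ∀ l g, Near (X4 (tile a z) l F) (0, 0) (eN n) 0 g → ∀ t1 : ℤ, -lv a ≤ t1 → t1 ≤ lv a →
    (t1 + (cen a z).1, g (t1 + (cen a z).1)) ∈ tile a z →
    (3 / 8) ^ (I - a - m) * Dt I t1 (sh a z g) ≤ 1

/-- If the passage times differ, some geodesic passes through the tile. -/
def T_TC0 : Prop := ∀ (a n : ℕ) (z : ℤ × ℤ) (ω ω' : Env), (∀ x ∉ tile a z, ω x = ω' x) →
  (ff n ω' < ff n ω → ∀ g, Near ω (0, 0) (eN n) 0 g → ∃ r : ℤ, 0 < r ∧ r ≤ 2 * n ∧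
    (r, g r) ∈ tile a z) ∧ (ff n ω ≠ ff n ω' → Tch a n z ω ∨ Tch a n z ω')

/-- The deterministic step: a nonzero product of differences. -/
def T_KG2 : Prop := ∀ q : ℝ, 0 < q → q < 1 → ∃ C : ℝ, 0 < C ∧
  ∀ (δ Cg : ℝ) (p₀ : ℝ≥0∞) (k₀ : ℕ) (c : Cst) (Xc : ℤ) (a I m n k : ℕ) (z : ℤ × ℤ)
    (F : PEnv × PEnv), PK q δ Cg c k₀ p₀ → C ≤ Cg → 1 ≤ k₀ → k₀ ≤ a → 16 * c.A ≤ Xc →
    4 * Xc ≤ 4 ^ a → a ≤ k → k ≤ a + m → a + m ≤ I → lv (I + 1) ≤ 64 ^ a * z.1 →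
    64 ^ a * z.1 + lv (I + 1) ≤ 2 * n → RegF c Xc a I m n z F → JQ c Xc a I k z F →
    (∀ j, a ≤ j → j < k → ¬ JQ c Xc a I j z F) →
    ff n (X4 (tile a z) 0 F) ≠ ff n (X4 (tile a z) 1 F) →
    ff n (X4 (tile a z) 2 F) ≠ ff n (X4 (tile a z) 3 F) →
    GK c Xc a I n k z F ∧
    |ff n (X4 (tile a z) 0 F) - ff n (X4 (tile a z) 1 F)| ≤
      (2 * c.K * (1 + c.B) + sg q * c.B ^ 2) * 4 ^ k ∧
    |ff n (X4 (tile a z) 2 F) - ff n (X4 (tile a z) 3 F)| ≤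
      (2 * c.K * (1 + c.B) + sg q * c.B ^ 2) * 4 ^ k

/-- Probability that a geodesic passes through a tile. -/
def T_TCH : Prop := ∀ q c0 : ℝ, 0 < q → q < 1 → 0 < c0 → c0 ≤ 1 → I_LT q → I_N q →
  ∃ (C c s : ℝ) (n0 : ℕ), 0 < C ∧ 0 < c ∧ 0 < s ∧ ∀ (n a b : ℕ) (z : ℤ × ℤ), n0 ≤ n →
    ((2 * n : ℕ) : ℝ) ^ c0 ≤ 64 ^ a → a ≤ b →
    min (64 ^ a * z.1) (2 * n - 64 ^ a * z.1) < lv (b + 1) →
    PE q {ω | Tch a n z ω} ≤ ENNReal.ofReal (C * Real.exp (-((2 * n : ℕ) : ℝ) ^ c) +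
      C * Real.exp (-(c * (|(z.2 : ℝ)| * 16 ^ a / 16 ^ b) ^ s)))

/-- Probability of a large displacement at the top scale for a geodesic through the tile. -/
def T_PDT : Prop := ∀ q c0 : ℝ, 0 < q → q < 1 → 0 < c0 → c0 ≤ 1 → I_LT q → I_N q →
  ∃ (C c s : ℝ) (n0 : ℕ), 0 < C ∧ 0 < c ∧ 0 < s ∧ ∀ (n a I : ℕ) (z : ℤ × ℤ) (y : ℝ), n0 ≤ n →
    ((2 * n : ℕ) : ℝ) ^ c0 ≤ 64 ^ a → a ≤ I → lv (I + 1) ≤ 64 ^ a * z.1 →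
    64 ^ a * z.1 + lv (I + 1) ≤ 2 * n →
    min (64 ^ a * z.1) (2 * n - 64 ^ a * z.1) < lv (I + 2) → 0 ≤ y →
    PE q {ω | ∃ g, Near ω (0, 0) (eN n) 0 g ∧ ∃ t1 : ℤ, -lv a ≤ t1 ∧ t1 ≤ lv a ∧
      y ≤ Dt I t1 (sh a z g)} ≤ ENNReal.ofReal (C * Real.exp (-((2 * n : ℕ) : ℝ) ^ c) +
      C * Real.exp (-(c * y ^ s)))

/-- Probability of irregular behaviour at a tile touched by a geodesic. -/
def T_PFL : Prop := ∀ (q c0 M Cg κ c₁ : ℝ) (p₀ : ℝ≥0∞) (k₀ : ℕ) (c : Cst),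
  0 < q → q < 1 → 0 < c0 → c0 ≤ 1 → 0 < M → I_LT q → I_N q → CstOK q M Cg c κ c₁ p₀ k₀ →
  ∃ (C c' s : ℝ) (n0 : ℕ), 0 < C ∧ 0 < c' ∧ 0 < s ∧
  ∀ (n a I : ℕ) (z : ℤ × ℤ) (ρ : Site → ℝ), n0 ≤ n → ((2 * n : ℕ) : ℝ) ^ c0 ≤ 64 ^ a →
    a ≤ I → lv (I + 1) ≤ 64 ^ a * z.1 → 64 ^ a * z.1 + lv (I + 1) ≤ 2 * n →
    min (64 ^ a * z.1) (2 * n - 64 ^ a * z.1) < lv (I + 2) →
    ((PN q ρ).prod (PN q ρ)) {F | (∃ l, Tch a n z (X4 (tile a z) l F)) ∧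
      ¬ (RegF c (Xn c0 (2 * n)) a I ((I - a) / 2) n z F ∧
        ∃ k, a ≤ k ∧ k ≤ a + (I - a) / 2 ∧ JQ c (Xn c0 (2 * n)) a I k z F)} ≤
      ENNReal.ofReal (C * Real.exp (-((2 * n : ℕ) : ℝ) ^ c') +
        C * Real.exp (-(M / 4 * ((I : ℝ) - a))) *
          Real.exp (-(c' * (|(z.2 : ℝ)| * 16 ^ a / 16 ^ I) ^ s)))

/-- The scale of the distance to the nearer end point. -/
noncomputable def bz (n a : ℕ) (z : ℤ × ℤ) : ℕ :=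
  sInf {b | a ≤ b ∧ min (64 ^ a * z.1) (2 * n - 64 ^ a * z.1) < lv (b + 1)}

/-- Properties of `bz`. -/
def T_BZ : Prop := ∀ (n a : ℕ) (z : ℤ × ℤ), 1 ≤ a → 1 ≤ n → 64 ^ a ≤ 2 * n →
  a ≤ bz n a z ∧ min (64 ^ a * z.1) (2 * n - 64 ^ a * z.1) < lv (bz n a z + 1) ∧
  64 ^ bz n a z ≤ 2 * n ∧
  (a < bz n a z → lv (bz n a z) ≤ 64 ^ a * z.1 ∧ 64 ^ a * z.1 + lv (bz n a z) ≤ 2 * n)

open Classical in
/-- The failure term of a tile. -/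
noncomputable def fail (C c s E : ℝ) (n a : ℕ) (z : ℤ × ℤ) : ℝ :=
  if ∃ x ∈ domN n, x ∈ tile a z then
    C * 16 ^ bz n a z * Real.exp (-(11 * ((bz n a z : ℝ) - a))) *
      Real.exp (-(c * (|(z.2 : ℝ)| * 16 ^ a / 16 ^ bz n a z) ^ s)) + E
  else 0

/-- The sum of the failure terms. -/
def T_KSM : Prop := ∀ C c c' s : ℝ, 0 < C → 0 < c → 0 < c' → 0 < s → ∃ C' : ℝ, 0 < C' ∧
  ∀ n a : ℕ, 1 ≤ n → 1 ≤ a → 64 ^ a ≤ 2 * n → ∀ Z : Finset (ℤ × ℤ),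
    ∑ z ∈ Z, fail C c s (C * (n : ℝ) ^ 40 * Real.exp (-((2 * n : ℕ) : ℝ) ^ c')) n a z ≤
      C' * 16 ^ a

/-- Cauchy-Schwarz for the product of the two differences on an event. -/
def T_CSW : Prop := ∀ q c0 : ℝ, 0 < q → q < 1 → 0 < c0 → c0 ≤ 1 → I_LT q → I_N q →
  ∃ (C : ℝ) (n0 : ℕ), 0 < C ∧
  ∀ (n a b : ℕ) (z : ℤ × ℤ) (ρ : Site → ℝ) (S : Set (PEnv × PEnv)) (p : ℝ), n0 ≤ n →
    ((2 * n : ℕ) : ℝ) ^ c0 ≤ 64 ^ a → a ≤ b → 64 ^ b ≤ 2 * n →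
    min (64 ^ a * z.1) (2 * n - 64 ^ a * z.1) < lv (b + 1) → 0 ≤ p →
    ((PN q ρ).prod (PN q ρ)) S ≤ ENNReal.ofReal p →
    ∫⁻ F in S, ENNReal.ofReal (|ff n (X4 (tile a z) 0 F) - ff n (X4 (tile a z) 1 F)| *
      |ff n (X4 (tile a z) 2 F) - ff n (X4 (tile a z) 3 F)|) ∂((PN q ρ).prod (PN q ρ)) ≤
      ENNReal.ofReal (C * 16 ^ b * √p)

open Classical in
/-- The bound for one tile. -/
def T_KTL : Prop := ∀ q c0 : ℝ, 0 < q → q < 1 → 0 < c0 → c0 ≤ 1 → I_LT q → I_N q →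
  ∃ Cg : ℝ, 1 ≤ Cg ∧ ∀ (M κ c₁ : ℝ) (p₀ : ℝ≥0∞) (k₀ : ℕ) (c : Cst), 100 ≤ M →
  CstOK q M Cg c κ c₁ p₀ k₀ → ∃ (C c' s : ℝ) (n0 : ℕ), 0 < C ∧ 0 < c' ∧ 0 < s ∧
  ∀ (n a : ℕ) (z : ℤ × ℤ) (r : ℝ) (ρ : Site → ℝ), n0 ≤ n → 0 < r → r ≤ 1 → 1 ≤ a →
    ((2 * n : ℕ) : ℝ) ^ c0 ≤ 64 ^ a → 64 ^ a ≤ 2 * n → rk κ a ≤ r →
    (∀ x, r ≤ ρ x ∧ ρ x ≤ 1) → (∃ x ∈ domN n, x ∈ tile a z) →
    quad q n ρ (tile a z) ≤
      C * ∑ k ∈ (Finset.Icc a n).filter (fun k => 64 ^ k ≤ 2 * n),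
        Real.exp (-(M * ((k : ℝ) - a))) * (1 / 4) ^ k *
          ∑ x ∈ (domN n).filter (fun x => x ∈ kbox c.A a z k), Infx q n (fun _ => rk κ k) x +
      fail C c' s (C * (n : ℝ) ^ 40 * Real.exp (-((2 * n : ℕ) : ℝ) ^ c')) n a z

/-- DELIVERABLE of Part D for Part F. -/
def T_KK : Prop := ∀ q : ℝ, 0 < q → q < 1 → I_LT q → I_N q → Pool.Agent.H95.ND.I_V q →
  I_OVL q → Pool.Agent.H97.NF.KK q

end Pool.Agent.H76.ND
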