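import Pool.Agent.H76.ND.Targets

/-!
# Norms with a larger threshold at a smaller index
-/

open MeasureTheory ProbabilityTheory
open scoped ENNReal

namespace Pool.Agent.H76.ND

open Pool.Agent.H99.NS Pool.Agent.H22.LPP Pool.Agent.H95.INS

theorem pf_NMW (h_ALW : T_ALW) : T_NMW := by
  intro q K0 K1 Xc a I j k ω hK0 hXc hjk hK hG i hai hiI
  have hal : ∀ (i : ℕ) (D : ℝ), 0 ≤ D → al K0 k i D ≤ al K1 j i D := fun i D hD =>
    h_ALW K0 K1 D j k i hK0 hD hjk hK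
  have hmax : ∀ g h : ℝ, 0 ≤ max |g| |h| := fun g h => le_max_of_le_left (abs_nonneg _)
  have hX : ∀ (i : ℕ) (x : ℤ), |x| ≤ Xc * 16 ^ max j i → |x| ≤ Xc * 16 ^ max k i := by
    intro i x hx
    refine hx.trans (mul_le_mul_of_nonneg_left ?_ hXc)
    exact pow_le_pow_right₀ (by norm_num) (max_le_max hjk le_rfl)
  have hU : ∀ (P : PS) (i : ℕ) (s t : ℤ), UL P q K0 k i s t → UL P q K1 j i s t := by
    intro P i s t h s' t' g h1 h2 h3 h4
    exact (h s' t' g h1 h2 h3 h4).trans (by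
      have := hal i (max |(g s' : ℝ)| |(g t' : ℝ)|) (hmax _ _)
      linarith)
  have hL : ∀ (P : PS) (i : ℕ) (s t : ℤ), LL P q K0 Xc k i s t → LL P q K1 Xc j i s t := by
    intro P i s t h x y hx hy hxy hr
    refine le_trans ?_ (h x y (hX i x hx) (hX i y hy) hxy hr)
    have := hal i (max |(x : ℝ)| |(y : ℝ)|) (hmax _ _)
    linarith
  have hI : ∀ (P : PS), IL P q K0 Xc k a → IL P q K1 Xc j a := by
    intro P h u h1 h2 h3
    obtain ⟨y, h4, h5, h6⟩ := h u h1 h2 (hX a u.2 h3)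
    refine ⟨y, h4, h5, le_trans ?_ h6⟩
    have := hal a |(u.2 : ℝ)| (abs_nonneg _)
    linarith
  have h := hG i hai hiI
  exact ⟨hU _ _ _ _ h.um, hU _ _ _ _ h.up, hL _ _ _ _ h.lm, hL _ _ _ _ h.lp,
    fun e => hU _ _ _ _ (h.uc e), fun e => hL _ _ _ _ (h.lc e), fun e => hI _ (h.il e),
    fun e => hI _ (h.ir e)⟩

end Pool.Agent.H76.ND
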