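import Pool.Agent.H76.ND.RndRev
import Pool.Agent.H76.ND.Nmw
import Pool.Agent.H20.ND.ALM
import Pool.Agent.H20.ND.ALW
import Pool.Agent.H20.ND.UM3
import Pool.Agent.H85.ND.D1
import Pool.Agent.H85.ND.DIF
import Pool.Agent.H85.ND.GD
import Pool.Agent.H29.ND.D2
import Pool.Agent.H29.ND.D2C
import Pool.Agent.H29.ND.REC
import Pool.Agent.H35.ND.D2S
import Pool.Agent.H35.ND.O2
import Pool.Agent.H35.ND.REGE
import Pool.Agent.H4.ND.D3A
import Pool.Agent.H4.ND.LBC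
import Pool.Agent.H4.ND.LW
import Pool.Agent.H4.ND.WB
import Pool.Agent.H2.ND.D3D
import Pool.Agent.H2.ND.GSI
import Pool.Agent.H2.ND.SLP
import Pool.Agent.H86.ND.NOR
import Pool.Agent.H86.ND.O1
import Pool.Agent.H86.ND.U

/-!
# Part D of MP_57ddd5_pr: the deterministic half, without hypotheses
-/

namespace Pool.Agent.H76.ND

theorem a_ALM : T_ALM := Pool.Agent.H20.ND.pf_ALM
theorem a_ALW : T_ALW := Pool.Agent.H20.ND.pf_ALW
theorem a_NMW : T_NMW := pf_NMW a_ALW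
theorem a_REV : T_REV := pf_REV
theorem a_GSI : T_GSI := Pool.Agent.H2.ND.pf_GSI a_REV
theorem a_RND : T_RND := pf_RND
theorem a_UM3 : T_UM3 := Pool.Agent.H20.ND.pf_UM3
theorem a_U : T_U := Pool.Agent.H86.ND.pf_U a_UM3
theorem a_O1 : T_O1 := Pool.Agent.H86.ND.O1M.pf_O1
theorem a_LBC : T_LBC := Pool.Agent.H4.ND.pf_LBC a_RND
theorem a_O2 : T_O2 := Pool.Agent.H35.ND.pf_O2 a_RND
theorem a_D1 : T_D1 := Pool.Agent.H85.ND.pf_D1 a_U a_O1 a_LBC a_O2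
theorem a_NOR : T_NOR := Pool.Agent.H86.ND.pf_NOR
theorem a_WB : T_WB := Pool.Agent.H4.ND.pf_WB
theorem a_LW : T_LW := Pool.Agent.H4.ND.pf_LW a_RND
theorem a_SLP : T_SLP := Pool.Agent.H2.ND.pf_SLP
theorem a_D2S : T_D2S := Pool.Agent.H35.ND.pf_D2S a_WB a_LW a_SLP
theorem a_D2C : T_D2C := Pool.Agent.H29.ND.pf_D2C a_LW
theorem a_REC : T_REC := Pool.Agent.H29.ND.pf_REC
theorem a_D2 : T_D2 := Pool.Agent.H29.ND.pf_D2 a_NOR a_D2S a_D2C a_REC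
theorem a_REGE : T_REGE := Pool.Agent.H35.ND.pf_REGE a_REV a_GSI a_NOR a_D2
theorem a_GD : T_GD := Pool.Agent.H85.ND.pf_GD a_D1 a_REGE
theorem a_DIF : T_DIF := Pool.Agent.H85.ND.pf_DIF
theorem a_D3A : T_D3A := Pool.Agent.H4.ND.pf_D3A a_ALM
theorem a_D3D : T_D3D := Pool.Agent.H2.ND.pf_D3D

end Pool.Agent.H76.ND
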