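import Pool.Agent.H76.ND.Targets2
import Pool.Agent.H85.NF.GMO

/-!
# Crude moments of the passage times
-/

open MeasureTheory ProbabilityTheory
open scoped ENNReal

namespace Pool.Agent.H76.ND

open Pool.Agent.H99.NS Pool.Agent.H22.LPP Pool.Agent.H95.INS

/-- A finite set of sites containing all the sites used. -/
noncomputable def boxS (o e : Site) (N : ℕ) : Finset Site :=
  Finset.Ioc o.1 e.1 ×ˢ Finset.Icc (o.2 - N) (o.2 + N)

theorem T_le_boxS (ω : Env) {o e : Site} {N : ℕ} (hN : e.1 - o.1 = N) (hr : Reach o e) :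
    T ω o e ≤ ∑ x ∈ boxS o e N, (ω x : ℝ) := by
  refine T_le ω hr fun γ hγ => ?_
  unfold wt boxS
  rw [Finset.sum_product]
  refine Finset.sum_le_sum fun r hr' => ?_
  rw [Finset.mem_Ioc] at hr'
  have h1 := path_lip hγ.1 le_rfl hr'.1.le hr'.2
  rw [hγ.2.1] at h1
  have h2 := abs_le.1 h1.1
  refine Finset.single_le_sum (f := fun y => (ω (r, y) : ℝ)) (fun _ _ => Nat.cast_nonneg _) ?_
  rw [Finset.mem_Icc]
  constructor <;> omega

theorem card_boxS {o e : Site} {N : ℕ} (hN : e.1 - o.1 = N) (h1 : 1 ≤ N) :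
    ((boxS o e N).card : ℝ) ≤ 3 * (N : ℝ) ^ 2 := by
  have h : (boxS o e N).card = N * (2 * N + 1) := by
    unfold boxS
    rw [Finset.card_product, Int.card_Ioc, Int.card_Icc]
    congr 1
    · omega
    · omega
  rw [h]
  push_cast
  have : (1 : ℝ) ≤ N := by exact_mod_cast h1
  nlinarith

theorem crm_pt (S : Finset Site) (f : Site → ℝ) (hf : ∀ x, 0 ≤ f x) (t B : ℝ) (ht : 0 ≤ t)
    (hle : t ≤ ∑ x ∈ S, f x) (hB : (S.card : ℝ) ≤ B) :
    t ^ 8 ≤ B ^ 7 * ∑ x ∈ S, f x ^ 8 := by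
  have h3 : t ^ 8 ≤ (∑ x ∈ S, f x) ^ 8 := pow_le_pow_left₀ ht hle 8
  have h4 : (∑ x ∈ S, f x) ^ 8 ≤ (S.card : ℝ) ^ 7 * ∑ x ∈ S, f x ^ 8 :=
    pow_sum_le_card_mul_sum_pow (s := S) (f := f) (fun x _ => hf x) 7
  have h5 : (S.card : ℝ) ^ 7 ≤ B ^ 7 := pow_le_pow_left₀ (Nat.cast_nonneg _) hB 7
  have h6 : 0 ≤ ∑ x ∈ S, f x ^ 8 := Finset.sum_nonneg fun x _ => pow_nonneg (hf x) 8
  exact h3.trans (h4.trans (mul_le_mul_of_nonneg_right h5 h6))

theorem pf_CRM : T_CRM := by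
  intro q hq0 hq1
  have hI := Pool.Agent.H85.NF.pf_GMO q hq0.le hq1 8
  set C8 : ℝ := ∫ k : ℕ, (k : ℝ) ^ 8 ∂(geo q) with hC8
  have hC80 : 0 ≤ C8 := integral_nonneg fun k => by positivity
  have hlint : ∀ x : Site, ∫⁻ ω, ENNReal.ofReal ((ω x : ℝ) ^ 8) ∂(PE q) = ENNReal.ofReal C8 := by
    intro x
    have hmp : MeasurePreserving (fun ω : Env => ω x) (PE q) (geo q) :=
      measurePreserving_eval_infinitePi (fun _ : Site => geo q) x
    have h1 := hmp.lintegral_comp (f := fun k : ℕ => ENNReal.ofReal ((k : ℝ) ^ 8))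
      (measurable_from_nat)
    rw [h1, hC8, ofReal_integral_eq_lintegral_ofReal hI (Filter.Eventually.of_forall fun k => by
      positivity)]
  refine ⟨3 ^ 8 * (C8 + 1), by positivity, fun N o e hN1 hN hr => ?_⟩
  have hcard := card_boxS (o := o) (e := e) hN hN1
  have hpt : ∀ ω : Env, T ω o e ^ 8 ≤ (3 * (N : ℝ) ^ 2) ^ 7 * ∑ x ∈ boxS o e N, (ω x : ℝ) ^ 8 := by
    intro ω
    exact crm_pt (boxS o e N) (fun x => (ω x : ℝ)) (fun _ => Nat.cast_nonneg _) (T ω o e) _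
      (T_nonneg ω o e) (T_le_boxS ω hN hr) hcard
  calc ∫⁻ ω, ENNReal.ofReal (T ω o e ^ 8) ∂(PE q)
      ≤ ∫⁻ ω, ENNReal.ofReal ((3 * (N : ℝ) ^ 2) ^ 7) *
          ∑ x ∈ boxS o e N, ENNReal.ofReal ((ω x : ℝ) ^ 8) ∂(PE q) := by
        refine lintegral_mono fun ω => ?_
        rw [← ENNReal.ofReal_sum_of_nonneg (fun x _ => by positivity),
          ← ENNReal.ofReal_mul (by positivity)]
        exact ENNReal.ofReal_le_ofReal (hpt ω)
    _ = ENNReal.ofReal ((3 * (N : ℝ) ^ 2) ^ 7) *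
          ∑ x ∈ boxS o e N, ∫⁻ ω, ENNReal.ofReal ((ω x : ℝ) ^ 8) ∂(PE q) := by
        rw [lintegral_const_mul', lintegral_finset_sum]
        · intro x _
          exact (measurable_from_nat (f := fun k : ℕ => ENNReal.ofReal ((k : ℝ) ^ 8))).comp
            (measurable_pi_apply x)
        · exact ENNReal.ofReal_ne_top
    _ = ENNReal.ofReal ((3 * (N : ℝ) ^ 2) ^ 7 * ((boxS o e N).card * C8)) := by
        simp only [hlint, Finset.sum_const, nsmul_eq_mul]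
        rw [← ENNReal.ofReal_natCast, ← ENNReal.ofReal_mul (by positivity),
          ← ENNReal.ofReal_mul (by positivity)]
    _ ≤ ENNReal.ofReal (3 ^ 8 * (C8 + 1) * (N : ℝ) ^ 16) := by
        refine ENNReal.ofReal_le_ofReal ?_
        calc (3 * (N : ℝ) ^ 2) ^ 7 * ((boxS o e N).card * C8)
            ≤ (3 * (N : ℝ) ^ 2) ^ 7 * ((3 * (N : ℝ) ^ 2) * (C8 + 1)) := by
              gcongr
              linarith
          _ = _ := by ring

end Pool.Agent.H76.ND
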