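import Pool.Agent.H76.ND.Targets2

/-!
# Probability that `k` is the first jointly good scale
-/

open MeasureTheory ProbabilityTheory
open scoped ENNReal

namespace Pool.Agent.H76.ND

open Pool.Agent.H99.NS Pool.Agent.H22.LPP Pool.Agent.H95.INS
open Pool.Agent.H97.NF (PEnv eA eB PN glue ff Infx domN tile kbox rk quad OnGeo glue_of_mem
  glue_of_notMem measurable_glue mp_glue_self mp_eA mp_eB measurable_eA measurable_eB)
open Pool.Agent.H95.ND (Sml I_N PK JCs goodAt zc win Xf RGG PALMs)

theorem tile_sub (c : Cst) (Xc : ℤ) (a k : ℕ) (z : ℤ × ℤ) (ha : 1 ≤ a) (hak : a ≤ k)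
    (hA : 4 ≤ c.A) : tile a z ⊆ BxAt (dk c Xc k) (cen a z) := by
  rintro x ⟨h1, h2, h3, h4⟩
  obtain ⟨k', rfl⟩ : ∃ k', k = k' + 1 := ⟨k - 1, by omega⟩
  have e1 : (64 : ℤ) ^ a ≤ 64 ^ (k' + 1) := pow_le_pow_right₀ (by norm_num) hak
  have e2 : (16 : ℤ) ^ a ≤ 16 ^ (k' + 1) := pow_le_pow_right₀ (by norm_num) hak
  have e3 : (64 : ℤ) ^ (k' + 1) = 64 * 64 ^ k' := by ring
  have p1 : (0 : ℤ) < 16 ^ a := by positivity
  have hAw : (4 : ℤ) * 16 ^ (k' + 1) ≤ c.A * 16 ^ (k' + 1) :=
    mul_le_mul_of_nonneg_right hA (by positivity)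
  show _ ∧ _ ∧ _
  simp only [cen, dk, dat, Prod.fst_sub, Prod.snd_sub, Nat.add_sub_cancel]
  have e4 : (2 * z.1 - 1) * 64 ^ a = 2 * (64 ^ a * z.1) - 64 ^ a := by ring
  have e5 : (2 * z.1 + 1) * 64 ^ a = 2 * (64 ^ a * z.1) + 64 ^ a := by ring
  have e6 : (2 * z.2 - 1) * 16 ^ a = 2 * (16 ^ a * z.2) - 16 ^ a := by ring
  have e7 : (2 * z.2 + 1) * 16 ^ a = 2 * (16 ^ a * z.2) + 16 ^ a := by ring
  rw [e4] at h1
  rw [e5] at h2
  rw [e6] at h3
  rw [e7] at h4
  refine ⟨by omega, by omega, ?_⟩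
  rw [abs_lt]
  constructor <;> omega

theorem shiftE_splice (D : Dat) (ζ : Site) (w w' : Env) :
    shiftE ζ (splice (BxAt D ζ) w w') = splice (Bx D) (shiftE ζ w) (shiftE ζ w') := by
  funext x
  by_cases hx : x ∈ Bx D
  · have hx' : x + ζ ∈ BxAt D ζ := by
      show x + ζ - ζ ∈ Bx D
      rwa [add_sub_cancel_right]
    rw [splice_of_mem _ _ hx]
    show splice (BxAt D ζ) w w' (x + ζ) = w (x + ζ)
    rw [splice_of_mem _ _ hx']
  · have hx' : x + ζ ∉ BxAt D ζ := by
      show x + ζ - ζ ∉ Bx D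
      rwa [add_sub_cancel_right]
    rw [splice_of_not_mem _ _ hx]
    show splice (BxAt D ζ) w w' (x + ζ) = w' (x + ζ)
    rw [splice_of_not_mem _ _ hx']

theorem eA_glue (B : Set Site) (E E' : PEnv) : eA (glue B E E') = splice B (eA E') (eA E) := by
  funext x
  by_cases hx : x ∈ B
  · rw [splice_of_mem _ _ hx]
    show (glue B E E' x).1 = (E' x).1
    rw [glue_of_mem _ _ hx]
  · rw [splice_of_not_mem _ _ hx]
    show (glue B E E' x).1 = (E x).1
    rw [glue_of_notMem _ _ hx]

theorem eB_glue (B : Set Site) (E E' : PEnv) : eB (glue B E E') = splice B (eB E') (eB E) := by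
  funext x
  by_cases hx : x ∈ B
  · rw [splice_of_mem _ _ hx]
    show (glue B E E' x).2 = (E' x).2
    rw [glue_of_mem _ _ hx]
  · rw [splice_of_not_mem _ _ hx]
    show (glue B E E' x).2 = (E x).2
    rw [glue_of_notMem _ _ hx]

theorem splice_splice (Q B : Set Site) (h : Q ⊆ B) (u v w : Env) :
    splice Q u (splice B v w) = splice B (splice Q u v) w := by
  funext x
  by_cases hQ : x ∈ Q
  · rw [splice_of_mem _ _ hQ, splice_of_mem _ _ (h hQ), splice_of_mem _ _ hQ]
  · rw [splice_of_not_mem _ _ hQ]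
    by_cases hB : x ∈ B
    · rw [splice_of_mem _ _ hB, splice_of_mem _ _ hB, splice_of_not_mem _ _ hQ]
    · rw [splice_of_not_mem _ _ hB, splice_of_not_mem _ _ hB]

/-- The environment outside used for the index `l`. -/
noncomputable def outE (l : Fin 4) (E : PEnv) : Env :=
  if l = 0 then eA E else if l = 1 then eA E else if l = 2 then eB E else eB E

theorem X4_glue (Q B : Set Site) (h : Q ⊆ B) (l : Fin 4) (E E' F : PEnv) :
    X4 Q l (glue B E E', F) = splice B (X4 Q l (E', F)) (outE l E) := by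
  unfold X4 outE
  split_ifs
  · simp only [eA_glue]
  · simp only [eA_glue]
    rw [splice_splice Q B h]
  · simp only [eB_glue]
  · simp only [eB_glue]
    rw [splice_splice Q B h]

theorem mp_X4 (q : ℝ) (ρ : Site → ℝ) (Q : Set Site) (l : Fin 4) :
    MeasurePreserving (X4 Q l) ((PN q ρ).prod (PN q ρ)) (PE q) := by
  unfold X4
  split_ifs
  · exact (mp_eA q ρ).comp measurePreserving_fst
  · exact (mp_eA q ρ).comp (mp_glue_self q Q ρ)
  · exact (mp_eB q ρ).comp measurePreserving_fst
  · exact (mp_eB q ρ).comp (mp_glue_self q Q ρ)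

theorem agree_shift_splice (D : Dat) (ζ : Site) (w w' : Env) :
    Agree D (shiftE ζ (splice (BxAt D ζ) w w')) (shiftE ζ w') := by
  intro x hx
  rw [shiftE_splice, splice_of_not_mem _ _ hx]

theorem measurableSet_GdA {α : Type*} [MeasurableSpace α] (h_MEG : T_MEG) (c : Cst) (Xc : ℤ)
    (a n k : ℕ) (z : ℤ × ℤ) (X : α → Env) (hX : Measurable X) :
    MeasurableSet {F | GdA c Xc a n k z (X F)} := by
  have hr : Reach ((0, 0) - cen a z) (eN n - cen a z) := by
    have h1 : ((0, 0) - cen a z : Site) = (0, 0) + (-cen a z) := by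
      rw [sub_eq_add_neg]
    have h2 : (eN n - cen a z : Site) = eN n + (-cen a z) := by
      rw [sub_eq_add_neg]
    rw [h1, h2, reach_shift]
    refine ⟨?_, ⟨n, ?_⟩⟩
    · simp [eN]
    · simp [eN]; ring
  have h := (h_MEG (dk c Xc k) _ _ hr (by simp only [dk, dat]; positivity)).2.2.2.1
  have h2 : Measurable (fun F => shiftE (cen a z) (X F)) := by
    refine measurable_pi_lambda _ fun x => ?_
    exact (measurable_pi_apply (x + cen a z)).comp hX
  exact h2 h

theorem GdA_splice (h_MEG : T_MEG) (c : Cst) (Xc : ℤ) (a n k : ℕ) (z : ℤ × ℤ) (w w' : Env) :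
    GdA c Xc a n k z (splice (BxAt (dk c Xc k) (cen a z)) w w') ↔ GdA c Xc a n k z w' := by
  have hr : Reach ((0, 0) - cen a z) (eN n - cen a z) := by
    have h1 : ((0, 0) - cen a z : Site) = (0, 0) + (-cen a z) := by
      rw [sub_eq_add_neg]
    have h2 : (eN n - cen a z : Site) = eN n + (-cen a z) := by
      rw [sub_eq_add_neg]
    rw [h1, h2, reach_shift]
    refine ⟨?_, ⟨n, ?_⟩⟩
    · simp [eN]
    · simp [eN]; ring
  have h := (h_MEG (dk c Xc k) _ _ hr (by simp only [dk, dat]; positivity)).2.2.2.2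
    _ _ (agree_shift_splice (dk c Xc k) (cen a z) w w')
  exact h.2.2

theorem pf_KG3 (h_MEG : T_MEG) (h_MEA : Pool.Agent.H95.ND.T_MEA) : T_KG3 := by
  intro q M c Xc k₀ a I n k z ρ hq0 hq1 hcq hJC hXA hSml hk0 ha hak hkI hA
  set μ := PN q ρ with hμ
  set ζ := cen a z with hζ
  set Q := tile a z with hQ
  set B := BxAt (dk c Xc k) ζ with hB
  have hQB : Q ⊆ B := tile_sub c Xc a k z ha hak hA
  -- measurability
  have hmX : ∀ l, Measurable (fun F : PEnv × PEnv => shiftE ζ (X4 Q l F)) := by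
    intro l
    refine measurable_pi_lambda _ fun x => ?_
    exact (measurable_pi_apply (x + ζ)).comp (mp_X4 q ρ Q l).measurable
  have hJm : ∀ j, 1 ≤ j → MeasurableSet {F : PEnv × PEnv | JQ c Xc a I j z F} := by
    intro j hj
    have : {F : PEnv × PEnv | JQ c Xc a I j z F} =
        ⋂ l : Fin 4, (fun F => X4 Q l F) ⁻¹' {ω | goodAt c Xc a I j ζ ω} := by
      ext F
      simp only [Set.mem_ofPred_eq, Set.mem_iInter, Set.mem_preimage]
      rfl
    rw [this]
    exact MeasurableSet.iInter fun l => (mp_X4 q ρ Q l).measurable (h_MEA c Xc a I j ζ ha hj)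
  have hS : MeasurableSet {F : PEnv × PEnv | GK c Xc a I n k z F} := by
    have e : {F : PEnv × PEnv | GK c Xc a I n k z F} =
        {F | JQ c Xc a I k z F} ∩ (⋂ j ∈ Finset.Ico a k, {F | JQ c Xc a I j z F}ᶜ) ∩
          ({F | GdA c Xc a n k z (eA F.1)} ∩ {F | GdA c Xc a n k z (eB F.1)}) := by
      ext F
      simp only [GK, Set.mem_ofPred_eq, Set.mem_inter_iff, Set.mem_iInter, Set.mem_compl_iff,
        Finset.mem_Ico]
      tauto
    rw [e]
    refine ((hJm k (by omega)).inter (Finset.measurableSet_biInter _ fun j hj => ?_)).inter ?_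
    · rw [Finset.mem_Ico] at hj
      exact (hJm j (by omega)).compl
    · exact (measurableSet_GdA h_MEG c Xc a n k z _ (measurable_eA.comp measurable_fst)).inter
        (measurableSet_GdA h_MEG c Xc a n k z _ (measurable_eB.comp measurable_fst))
  have hG : MeasurableSet {E : PEnv | GdA c Xc a n k z (eA E) ∧ GdA c Xc a n k z (eB E)} :=
    (measurableSet_GdA h_MEG c Xc a n k z _ measurable_eA).inter
      (measurableSet_GdA h_MEG c Xc a n k z _ measurable_eB)
  -- the map
  have hΨ : MeasurePreserving (fun p : (PEnv × PEnv) × PEnv => (glue B p.1.1 p.1.2, p.2))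
      ((μ.prod μ).prod μ) (μ.prod μ) :=
    (mp_glue_self q B ρ).prod (MeasurePreserving.id μ)
  have hΦ : MeasurePreserving (fun p : PEnv × (PEnv × PEnv) => (glue B p.1 p.2.1, p.2.2))
      (μ.prod (μ.prod μ)) (μ.prod μ) := by
    have h1 : MeasurePreserving (MeasurableEquiv.prodAssoc.symm :
        PEnv × (PEnv × PEnv) ≃ᵐ (PEnv × PEnv) × PEnv) (μ.prod (μ.prod μ)) ((μ.prod μ).prod μ) :=
      (measurePreserving_prodAssoc μ μ μ).symm
    exact hΨ.comp h1
  have hpre := hΦ.measure_preimage hS.nullMeasurableSet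
  rw [← hpre, Measure.prod_apply (hΦ.measurable hS)]
  set b : ℝ≥0∞ := ENNReal.ofReal (4 * Real.exp (-(M * ((k : ℝ) - a)))) with hb
  calc ∫⁻ E, (μ.prod μ) (Prod.mk E ⁻¹' ((fun p : PEnv × (PEnv × PEnv) =>
        (glue B p.1 p.2.1, p.2.2)) ⁻¹' {F | GK c Xc a I n k z F})) ∂μ
      ≤ ∫⁻ E, {E : PEnv | GdA c Xc a n k z (eA E) ∧ GdA c Xc a n k z (eB E)}.indicator
          (fun _ => b) E ∂μ := by
        refine lintegral_mono fun E => ?_
        by_cases hE : E ∈ {E : PEnv | GdA c Xc a n k z (eA E) ∧ GdA c Xc a n k z (eB E)}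
        · rw [Set.indicator_of_mem hE]
          have hj := (hJC (PEnv × PEnv) (μ.prod μ) (fun l y => shiftE ζ (X4 Q l y))
            (fun l => by
              rw [hcq]
              exact (mp_shiftE q ζ).comp (mp_X4 q ρ Q l)) Xc a I a k hXA hSml hk0 ha le_rfl
              hak).1 hkI (fun l => shiftE ζ (outE l E))
          refine (measure_mono ?_).trans (hj.trans_eq ?_)
          · rintro y ⟨h1, h2, _, _⟩
            have e : ∀ l, shiftE ζ (X4 Q l (glue B E y.1, y.2)) =
                splice (Bx (dk c Xc k)) (shiftE ζ (X4 Q l y)) (shiftE ζ (outE l E)) := by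
              intro l
              rw [X4_glue Q B hQB, shiftE_splice]
            refine ⟨fun l => ?_, fun j hj1 hj2 => ?_⟩
            · rw [← e l]
              exact h1 l
            · have h3 := h2 j hj1 hj2
              unfold JQ at h3
              push Not at h3
              obtain ⟨l, hl⟩ := h3
              refine ⟨l, ?_⟩
              rw [← e l]
              exact hl
          · rw [hb]
            norm_num
        · rw [Set.indicator_of_notMem hE]
          refine le_of_eq ?_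
          convert measure_empty (μ := μ.prod μ)
          ext y
          simp only [Set.mem_preimage, Set.mem_ofPred_eq, Set.mem_empty_iff_false, iff_false]
          rintro ⟨_, _, h3, h4⟩
          refine hE ⟨?_, ?_⟩
          · rw [eA_glue] at h3
            exact (GdA_splice h_MEG c Xc a n k z _ _).1 h3
          · rw [eB_glue] at h4
            exact (GdA_splice h_MEG c Xc a n k z _ _).1 h4
    _ = b * μ {E : PEnv | GdA c Xc a n k z (eA E) ∧ GdA c Xc a n k z (eB E)} := by
        rw [lintegral_indicator hG, setLIntegral_const]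

end Pool.Agent.H76.ND
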