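import Pool.Agent.H76.ND.Targets2
import Pool.Agent.H4.ND.LW

/-!
# Module RLO: rerouting below the core through a given point
-/

namespace Pool.Agent.H76.ND

open Pool.Agent.H99.NS Pool.Agent.H22.LPP Pool.Agent.H95.INS

/-- The real inequality. -/
theorem rlo_real {s F Z X C1 C2 m W A B : ℝ} (hs : 0 < s) (hF : 0 < F) (hZ : 1 ≤ Z) (hX : 0 ≤ X)
    (h1 : 0 < C1) (h2 : 0 < C2)
    (hW : W ≤ 2048 * m + C1 * (8 * Z ^ 2 * F))
    (hA : 2016 * m - s / 2 * ((2 + X ^ 2) * F) - 5 * Z * F * (11 + X) ≤ A)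
    (hB : 32 * m - s / 2 * (33 * F) - C2 * Z * F * 33 ≤ B) :
    W ≤ A + B + (8 * C1 + 18 * s + 60 + 33 * C2) * (Z + X) ^ 2 * F := by
  have g1 : Z ^ 2 ≤ (Z + X) ^ 2 := by nlinarith only [hX, hZ]
  have g2 : Z ≤ (Z + X) ^ 2 := by nlinarith only [hZ, g1]
  have g3 : X ^ 2 ≤ (Z + X) ^ 2 := by nlinarith only [hZ, hX]
  have g4 : Z * X ≤ (Z + X) ^ 2 := by nlinarith
  have g5 : 1 ≤ (Z + X) ^ 2 := by nlinarith only [hZ, g2]
  obtain ⟨S, hS⟩ : ∃ S : ℝ, S = (Z + X) ^ 2 := ⟨_, rfl⟩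
  rw [← hS] at g1 g2 g3 g4 g5 ⊢
  have k1 : C1 * (8 * Z ^ 2 * F) ≤ 8 * C1 * S * F := by
    have := mul_le_mul_of_nonneg_left g1 (by positivity : 0 ≤ C1 * 8 * F)
    linarith
  have k2 : s / 2 * ((2 + X ^ 2) * F) + s / 2 * (33 * F) ≤ 18 * s * S * F := by
    have e1 : 35 + X ^ 2 ≤ 36 * S := by linarith
    have := mul_le_mul_of_nonneg_left e1 (by positivity : 0 ≤ s / 2 * F)
    linarith
  have k3 : 5 * Z * F * (11 + X) ≤ 60 * S * F := by
    have e1 : Z * (11 + X) ≤ 12 * S := by linarith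
    have := mul_le_mul_of_nonneg_left e1 (by positivity : 0 ≤ 5 * F)
    linarith
  have k4 : C2 * Z * F * 33 ≤ 33 * C2 * S * F := by
    have := mul_le_mul_of_nonneg_left g2 (by positivity : 0 ≤ 33 * C2 * F)
    linarith
  have k5 : (8 * C1 + 18 * s + 60 + 33 * C2) * S * F =
      8 * C1 * S * F + 18 * s * S * F + 60 * S * F + 33 * C2 * S * F := by ring
  rw [k5]
  linarith

theorem pf_RLO (h_WB : T_WB) (h_LW : T_LW) : T_RLO := by
  intro q hq0 hq1
  obtain ⟨C1, hC1, hWB⟩ := h_WB q hq0 hq1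
  obtain ⟨C2, hC2, hLW⟩ := h_LW q hq0 hq1
  have hsg := sg_pos hq0 hq1
  refine ⟨8 * C1 + 18 * sg q + 60 + 33 * C2, by positivity, ?_⟩
  intro P K0 Xc a I k v g hK0 hXc hXca ha hak haI hG hp hg0 hX hv hR1 hR2
  have c0 := Pool.Agent.H4.ND.lv_real (i := a) ha
  have c1 := Pool.Agent.H4.ND.lv_real_succ (i := a) ha
  have c2 : ((lv (a + 2) : ℤ) : ℝ) = 2048 * 64 ^ a := by
    have := Pool.Agent.H4.ND.lv_real_succ (i := a + 1) (by omega)
    rw [show a + 2 = a + 1 + 1 from rfl, this, pow_succ]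
    ring
  have l0 := Pool.Agent.H4.ND.lv_pos a
  have l1 := Pool.Agent.H4.ND.lv_mono (i := a) (j := a + 1) (by omega)
  have l2 := Pool.Agent.H4.ND.lv_mono (i := a + 1) (j := a + 2) (by omega)
  -- upper bound
  have w1 := hWB P K0 a k (a + 1) 0 g hK0 ha hak (by omega) (by omega) l0.le hp hg0 hG.uc
    (fun m h1 h2 => hG.u m h1 (by omega))
  -- lower bound in the core
  have w3 := hLW P K0 Xc a k a (0, g 0) v hK0 (by omega) hXca ha hak le_rfl
    (by simp only; omega) (by simp only; omega) hg0 (by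
      simp only
      have e1 : (16 : ℤ) ^ (a + 1) = 16 * 16 ^ a := by rw [pow_succ]; ring
      rw [e1] at hv
      have : (0 : ℤ) < 16 ^ a := by positivity
      nlinarith only [hXc, hv, this]) hR2 hG.il
    (fun m h1 h2 => hG.l m h1 (by omega))
  simp only at w3
  -- lower bound in the slab
  have hm1 : (16 : ℤ) ^ k ≤ 16 ^ max k (a + 1) := pow_le_pow_right₀ (by norm_num) (le_max_left _ _)
  have hm2 : (16 : ℤ) ^ (a + 1) ≤ 16 ^ max k (a + 1) :=
    pow_le_pow_right₀ (by norm_num) (le_max_right _ _)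
  have hg0' : |g 0| ≤ 8 * 16 ^ k := by exact_mod_cast hg0
  have hP1 : (0 : ℤ) < 16 ^ (a + 1) := by positivity
  have hPk : (0 : ℤ) < 16 ^ k := by positivity
  have hx' : |g (-lv (a + 2))| ≤ |g (-lv (a + 2)) - g 0| + |g 0| := by
    have := abs_add_le (g (-lv (a + 2)) - g 0) (g 0)
    rwa [sub_add_cancel] at this
  have hv' : |v| ≤ |v - g 0| + |g 0| := by
    have := abs_add_le (v - g 0) (g 0)
    rwa [sub_add_cancel] at this
  have hxv : |g (-lv (a + 2)) - v| ≤ |g (-lv (a + 2)) - g 0| + |v - g 0| := by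
    have := abs_sub_le (g (-lv (a + 2))) (g 0) v
    rwa [abs_sub_comm (g 0) v] at this
  have w2 := hG.l (a + 1) (by omega) haI (g (-lv (a + 2))) v (by nlinarith only [hXc, hX, hm1, hm2, hg0', hP1, hx']) (by nlinarith only [hXc, hv, hm1, hm2, hg0', hP1, hv'])
    (by nlinarith only [hXc, hX, hv, hP1, hxv]) hR1
  rw [Pool.Agent.H4.ND.par_mk] at w2
  -- real quantities
  obtain ⟨E, hE⟩ : ∃ E : ℝ, E = 64 ^ a := ⟨_, rfl⟩
  obtain ⟨F, hF⟩ : ∃ F : ℝ, F = 4 ^ a := ⟨_, rfl⟩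
  obtain ⟨p, hpd⟩ : ∃ p : ℝ, p = 16 ^ a := ⟨_, rfl⟩
  have hE0 : 0 < E := by rw [hE]; positivity
  have hF0 : 0 < F := by rw [hF]; positivity
  have hp0 : 0 < p := by rw [hpd]; positivity
  have hpEF : p ^ 2 = E * F := by
    rw [hpd, hE, hF, ← pow_mul, mul_comm a 2, pow_mul, ← mul_pow]
    norm_num
  obtain ⟨th, hth⟩ : ∃ th : ℝ, th = (101 / 100) ^ (k - a) := ⟨_, rfl⟩
  have hth1 : 1 ≤ th := by rw [hth]; exact one_le_pow₀ (by norm_num)
  obtain ⟨D, hD⟩ : ∃ D : ℝ, D = ((g (-lv (a + 2)) - g 0 : ℤ) : ℝ) := ⟨_, rfl⟩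
  obtain ⟨d, hd⟩ : ∃ d : ℝ, d = ((v - g 0 : ℤ) : ℝ) := ⟨_, rfl⟩
  obtain ⟨X, hXd⟩ : ∃ X : ℝ, X = |D| / p := ⟨_, rfl⟩
  have hX0 : 0 ≤ X := by rw [hXd]; positivity
  have eX : |D| = X * p := by rw [hXd]; field_simp
  have hD2 : D ^ 2 = X ^ 2 * (E * F) := by
    rw [← sq_abs D, eX, mul_pow, hpEF]
  have hd1 : |d| ≤ 32 * p := by
    rw [hd, hpd]
    have : |((v - g 0 : ℤ) : ℝ)| ≤ 2 * 16 ^ (a + 1) := by exact_mod_cast hv
    rw [pow_succ] at this
    linarith
  have hd2 : d ^ 2 ≤ 1024 * (E * F) := by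
    rw [← sq_abs d, ← hpEF]
    have := abs_nonneg d
    nlinarith only [hq0, hq1, hp0, hd1, this]
  have hZ : 1 ≤ K0 * th := one_le_mul_of_one_le_of_one_le hK0 hth1
  have key := rlo_real (s := sg q) (F := F) (Z := K0 * th) (X := X) (C1 := C1) (C2 := C2)
    (m := mu q * E) (W := P.W (-lv (a + 2)) 0 g)
    (A := P.TT (-lv (a + 2), g (-lv (a + 2))) (-lv (a + 1), v))
    (B := P.TT (-lv (a + 1), v) (0, g 0)) hsg hF0 hZ hX0 hC1 hC2 ?_ ?_ ?_
  · rw [← hD, ← hpd, ← hXd, ← hth, ← hF]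
    exact key
  · -- upper
    refine w1.trans ?_
    rw [show a + 1 + 1 = a + 2 from rfl]
    have e1 : ((0 + lv (a + 2) : ℤ) : ℝ) = 2048 * E := by rw [zero_add, c2, hE]
    rw [e1]
    have e2 : 0 ≤ sg q / 2 * ((g (-lv (a + 2)) - g 0 : ℤ) : ℝ) ^ 2 /
        (1001 / 1000 * ((lv (a + 2) + lv a : ℤ) : ℝ)) := by
      have : (0 : ℝ) ≤ ((lv (a + 2) + lv a : ℤ) : ℝ) := by
        have : 0 ≤ lv (a + 2) + lv a := by omega
        exact_mod_cast this
      positivity
    have e3 : C1 * K0 ^ 2 * (101 / 100) ^ (2 * ds k (a + 1)) * 4 ^ (a + 1) ≤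
        C1 * (8 * (K0 * th) ^ 2 * F) := by
      have f1 : ((101 : ℝ) / 100) ^ (2 * ds k (a + 1)) ≤ (101 / 100) ^ (2 * (k - a) + 2) := by
        refine pow_le_pow_right₀ (by norm_num) ?_
        unfold ds
        omega
      have f2 : ((101 : ℝ) / 100) ^ (2 * (k - a) + 2) = th ^ 2 * (101 / 100) ^ 2 := by
        rw [pow_add, hth, ← pow_mul, mul_comm 2 (k - a)]
      rw [f2] at f1
      have f3 : ((101 : ℝ) / 100) ^ (2 * ds k (a + 1)) ≤ 2 * th ^ 2 := by nlinarith only [f1]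
      rw [pow_succ (4 : ℝ), ← hF]
      have f4 : 0 ≤ C1 * K0 ^ 2 * (F * 4) := by positivity
      have := mul_le_mul_of_nonneg_left f3 f4
      linarith only [this]
    linarith only [e2, e3]
  · -- slab
    refine le_trans ?_ w2
    have e1 : ((-lv (a + 1) - -lv (a + 2) : ℤ) : ℝ) = 2016 * E := by
      push_cast
      rw [c2, c1, hE]
      ring
    rw [e1]
    have e2 : ((v - g (-lv (a + 2)) : ℤ) : ℝ) ^ 2 ≤ 2048 * (E * F) + 2 * (X ^ 2 * (E * F)) := by
      have : ((v - g (-lv (a + 2)) : ℤ) : ℝ) = d - D := by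
        rw [hd, hD]
        push_cast
        ring
      rw [this]
      nlinarith only [sq_nonneg (d + D), hD2, hd2]
    have e3 : sg q / 2 * ((v - g (-lv (a + 2)) : ℤ) : ℝ) ^ 2 / (2016 * E) ≤
        sg q / 2 * ((2 + X ^ 2) * F) := by
      rw [div_le_iff₀ (by positivity)]
      have f1 : 0 ≤ sg q / 2 := by positivity
      have f2 : ((v - g (-lv (a + 2)) : ℤ) : ℝ) ^ 2 ≤ (2 + X ^ 2) * F * (2016 * E) := by
        have f3 : 0 ≤ X ^ 2 * (E * F) := by positivity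
        have f4 : 0 < E * F := by positivity
        nlinarith only [hD2, e2, f4]
      calc sg q / 2 * ((v - g (-lv (a + 2)) : ℤ) : ℝ) ^ 2
          ≤ sg q / 2 * ((2 + X ^ 2) * F * (2016 * E)) := mul_le_mul_of_nonneg_left f2 f1
        _ = _ := by ring
    have e4 : al K0 k (a + 1) (max |((g (-lv (a + 2)) : ℤ) : ℝ)| |(v : ℝ)|) ≤
        5 * (K0 * th) * F * (11 + X) := by
      unfold al
      have f1 : ((101 : ℝ) / 100) ^ ds k (a + 1) ≤ th * (101 / 100) := by
        rw [hth, ← pow_succ]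
        refine pow_le_pow_right₀ (by norm_num) ?_
        unfold ds
        omega
      have m0 : (0 : ℝ) < 16 ^ max k (a + 1) := by positivity
      have m1 : (16 : ℝ) ^ k ≤ 16 ^ max k (a + 1) :=
        pow_le_pow_right₀ (by norm_num) (le_max_left _ _)
      have m2 : p * 16 ≤ 16 ^ max k (a + 1) := by
        rw [hpd, ← pow_succ]
        exact pow_le_pow_right₀ (by norm_num) (le_max_right _ _)
      have m3 : X * p ≤ X * 16 ^ max k (a + 1) :=
        mul_le_mul_of_nonneg_left (by linarith) hX0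
      have f2 : max |((g (-lv (a + 2)) : ℤ) : ℝ)| |(v : ℝ)| / 16 ^ max k (a + 1) ≤ 10 + X := by
        rw [div_le_iff₀ m0]
        refine max_le ?_ ?_
        · have : |((g (-lv (a + 2)) : ℤ) : ℝ)| ≤ |D| + 8 * 16 ^ k := by
            have h := abs_add_le D (g 0 : ℝ)
            have h2 : D + (g 0 : ℝ) = ((g (-lv (a + 2)) : ℤ) : ℝ) := by
              rw [hD]; push_cast; ring
            rw [h2] at h
            linarith
          rw [eX] at this
          nlinarith only [hp0, m1, m2, m3, this]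
        · have : |(v : ℝ)| ≤ |d| + 8 * 16 ^ k := by
            have h := abs_add_le d (g 0 : ℝ)
            have h2 : d + (g 0 : ℝ) = (v : ℝ) := by
              rw [hd]; push_cast; ring
            rw [h2] at h
            linarith
          nlinarith only [hd1, m1, m2, m3, this, hq0, hq1, hp0, hX0]
      have f3 : 0 ≤ max |((g (-lv (a + 2)) : ℤ) : ℝ)| |(v : ℝ)| / 16 ^ max k (a + 1) := by
        positivity
      rw [pow_succ (4 : ℝ), ← hF]
      calc K0 * (101 / 100) ^ ds k (a + 1) * (F * 4) *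
            (1 + max |((g (-lv (a + 2)) : ℤ) : ℝ)| |(v : ℝ)| / 16 ^ max k (a + 1))
          ≤ K0 * (th * (101 / 100)) * (F * 4) * (1 + (10 + X)) := by gcongr
        _ ≤ 5 * (K0 * th) * F * (11 + X) := by
          have : 0 ≤ K0 * th * F * (11 + X) := by positivity
          nlinarith only [this]
    have e5 : mu q * (2016 * E) = 2016 * (mu q * E) := by ring
    rw [e5]
    linarith
  · -- core
    refine le_trans ?_ w3
    have e1 : ((0 + lv (a + 1) : ℤ) : ℝ) = 32 * E := by rw [zero_add, c1, hE]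
    have e2 : ((lv (a + 1) - lv a : ℤ) : ℝ) = 63 / 2 * E := by
      push_cast
      rw [c1, c0, hE]
      ring
    rw [e1, e2, ← hd, Pool.Agent.H4.ND.ds_le hak, ← hth, ← hF, ← hpd]
    have e3 : sg q / 2 * d ^ 2 / (63 / 2 * E) ≤ sg q / 2 * (33 * F) := by
      rw [div_le_iff₀ (by positivity)]
      have f1 : 0 ≤ sg q / 2 := by positivity
      have f4 : 0 < E * F := by positivity
      have f2 : d ^ 2 ≤ 33 * F * (63 / 2 * E) := by nlinarith only [hd2, f4]
      calc sg q / 2 * d ^ 2 ≤ sg q / 2 * (33 * F * (63 / 2 * E)) := mul_le_mul_of_nonneg_left f2 f1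
        _ = _ := by ring
    have e4 : C2 * K0 * th * F * (1 + |d| / p) ≤ C2 * (K0 * th) * F * 33 := by
      have f1 : |d| / p ≤ 32 := by rw [div_le_iff₀ hp0]; exact hd1
      have f2 : 0 ≤ C2 * K0 * th * F := by positivity
      have := mul_le_mul_of_nonneg_left (by linarith only [f1] : 1 + |d| / p ≤ 33) f2
      linarith only [this]
    have e5 : mu q * (32 * E) = 32 * (mu q * E) := by ring
    rw [e5]
    linarith only [e3, e4]

end Pool.Agent.H76.ND
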