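import Pool.Agent.H76.ND.Targets

/-!
# Rounding and time reversal
-/

open MeasureTheory ProbabilityTheory
open scoped ENNReal

namespace Pool.Agent.H76.ND

open Pool.Agent.H99.NS Pool.Agent.H22.LPP Pool.Agent.H95.INS

theorem pf_RND : T_RND := by
  intro x y l hxy hl0 hl1
  obtain ⟨m, hm⟩ := hxy
  rcases le_total 0 m with h | h
  · have hm' : (0 : ℝ) ≤ m := by exact_mod_cast h
    have h1 : 0 ≤ ⌊l * m⌋ := Int.floor_nonneg.2 (mul_nonneg hl0 hm')
    have h2 : ⌊l * (m : ℝ)⌋ ≤ m := by
      have : l * (m : ℝ) ≤ m := by nlinarith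
      calc ⌊l * (m : ℝ)⌋ ≤ ⌊(m : ℝ)⌋ := Int.floor_le_floor this
        _ = m := Int.floor_intCast m
    refine ⟨x + 2 * ⌊l * m⌋, ⟨⌊l * m⌋, by ring⟩, ?_, ?_, ?_⟩
    · exact (min_le_left _ _).trans (by omega)
    · exact le_max_of_le_right (by omega)
    · have h3 : (y : ℝ) - x = m + m := by exact_mod_cast hm
      have h4 := Int.floor_le (l * (m : ℝ))
      have h5 := Int.lt_floor_add_one (l * (m : ℝ))
      push_cast
      rw [h3, abs_le]
      constructor <;> nlinarith
  · have hm' : (m : ℝ) ≤ 0 := by exact_mod_cast h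
    have h1 : ⌈l * (m : ℝ)⌉ ≤ 0 := by
      rw [Int.ceil_le]
      push_cast
      exact mul_nonpos_of_nonneg_of_nonpos hl0 hm'
    have h2 : m ≤ ⌈l * (m : ℝ)⌉ := by
      have : (m : ℝ) ≤ l * m := by nlinarith
      calc m = ⌈(m : ℝ)⌉ := (Int.ceil_intCast m).symm
        _ ≤ _ := Int.ceil_le_ceil this
    refine ⟨x + 2 * ⌈l * (m : ℝ)⌉, ⟨⌈l * (m : ℝ)⌉, by ring⟩, ?_, ?_, ?_⟩
    · exact min_le_of_right_le (by omega)
    · exact le_max_of_le_left (by omega)
    · have h3 : (y : ℝ) - x = m + m := by exact_mod_cast hm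
      have h4 := Int.le_ceil (l * (m : ℝ))
      have h5 := Int.ceil_lt_add_one (l * (m : ℝ))
      push_cast
      rw [h3, abs_le]
      constructor <;> nlinarith

theorem rvp_rvp (g : ℤ → ℤ) : rvp (rvp g) = g := by
  funext r; unfold rvp; rw [neg_neg]

theorem sp_rvp (q dl : ℝ) (s t : ℤ) (g : ℤ → ℤ) : sp q dl (-t) (-s) (rvp g) = sp q dl s t g := by
  unfold sp rvp
  simp only [neg_neg]
  have h1 : ((-s - -t : ℤ) : ℝ) = ((t - s : ℤ) : ℝ) := by push_cast; ring
  have h2 : ((g s - g t : ℤ) : ℝ) ^ 2 = ((g t - g s : ℤ) : ℝ) ^ 2 := by push_cast; ring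
  rw [h1, h2]

theorem max_rvp (s t : ℤ) (g : ℤ → ℤ) :
    max |(rvp g (-t) : ℝ)| |(rvp g (-s) : ℝ)| = max |(g s : ℝ)| |(g t : ℝ)| := by
  unfold rvp
  rw [neg_neg, neg_neg, max_comm]

theorem pf_REV : T_REV := by
  intro ω q K0 Xc k i s t
  constructor
  · constructor
    · intro h s' t' g h1 h2 h3 h4
      have := h (-t') (-s') (rvp g) (by omega) (by omega) (by omega) (rvp_path h4)
      rw [sp_rvp, max_rvp] at this
      refine le_trans (le_of_eq ?_) this
      show wt ω s' t' g = wt ω (- -s') (- -t') (rvp (rvp g))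
      rw [rvp_rvp, neg_neg, neg_neg]
    · intro h s' t' g h1 h2 h3 h4
      have h5 := rvp_path h4
      have := h (-t') (-s') (rvp g) (by omega) (by omega) (by omega) h5
      rw [sp_rvp, max_rvp] at this
      exact this
  · constructor
    · intro h x y hx hy hxy hr
      have hr' : Reach (-t, y) (-s, x) := by
        have := (reach_rev (u := (s, x)) (v := (t, y))).2 hr
        exact this
      have := h y x hy hx (by rw [abs_sub_comm]; exact hxy) hr'
      rw [max_comm] at this
      have e1 : par q (-t, y) (-s, x) = par q (s, x) (t, y) := by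
        unfold par
        simp only
        have h1 : ((-s - -t : ℤ) : ℝ) = ((t - s : ℤ) : ℝ) := by push_cast; ring
        have h2 : ((x - y : ℤ) : ℝ) ^ 2 = ((y - x : ℤ) : ℝ) ^ 2 := by push_cast; ring
        rw [h1, h2]
      rw [e1] at this
      refine this.trans (le_of_eq ?_)
      show T ω (rev (-s, x)) (rev (-t, y)) = T ω (s, x) (t, y)
      simp only [rev, neg_neg]
    · intro h x y hx hy hxy hr
      have hr' : Reach (s, y) (t, x) := by
        have := (reach_rev (u := (-t, x)) (v := (-s, y))).2 hr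
        simpa only [rev, neg_neg] using this
      have := h y x hy hx (by rw [abs_sub_comm]; exact hxy) hr'
      rw [max_comm] at this
      have e1 : par q (s, y) (t, x) = par q (-t, x) (-s, y) := by
        unfold par
        simp only
        have h1 : ((-s - -t : ℤ) : ℝ) = ((t - s : ℤ) : ℝ) := by push_cast; ring
        have h2 : ((x - y : ℤ) : ℝ) ^ 2 = ((y - x : ℤ) : ℝ) ^ 2 := by push_cast; ring
        rw [h1, h2]
      rw [e1] at this
      refine this.trans (le_of_eq ?_)
      show T ω (s, y) (t, x) = T ω (rev (-s, y)) (rev (-t, x))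
      simp only [rev, neg_neg]

end Pool.Agent.H76.ND
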