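import Pool.Agent.H76.ND.Defs

/-!
# Part D of MP_57ddd5_pr: targets of the deterministic part
-/

open MeasureTheory ProbabilityTheory
open scoped ENNReal

namespace Pool.Agent.H76.ND

open Pool.Agent.H99.NS Pool.Agent.H22.LPP Pool.Agent.H95.INS

/-! ## Allowances and norms -/

/-- Monotonicity of the allowances in the index of goodness. -/
def T_ALM : Prop := ∀ (K0 D : ℝ) (j k i : ℕ), 0 ≤ K0 → 0 ≤ D → j < k →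
  (k ≤ i → al K0 k i D ≤ al K0 j i D) ∧
  (i < k → (16 : ℝ) ^ k ≤ D → al K0 k i D ≤ al K0 j i D)

/-- Allowances with a larger threshold at a smaller index. -/
def T_ALW : Prop := ∀ (K0 K1 D : ℝ) (j k i : ℕ), 0 ≤ K0 → 0 ≤ D → j ≤ k →
  K0 * (101 / 100) ^ (k - j) ≤ K1 → al K0 k i D ≤ al K1 j i D

/-- Norms with a larger threshold at a smaller index. -/
def T_NMW : Prop := ∀ (q K0 K1 : ℝ) (Xc : ℤ) (a I j k : ℕ) (ω : Env), 0 ≤ K0 → 0 ≤ Xc → j ≤ k →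
  K0 * (101 / 100) ^ (k - j) ≤ K1 → GN q K0 Xc a I k ω → GN q K1 Xc a I j ω

/-- Reversal of time exchanges the slabs. -/
def T_REV : Prop := ∀ (ω : Env) (q K0 : ℝ) (Xc : ℤ) (k i : ℕ) (s t : ℤ),
  (UL (bwd ω) q K0 k i (-t) (-s) ↔ UL (fwd ω) q K0 k i s t) ∧
  (LL (bwd ω) q K0 Xc k i (-t) (-s) ↔ LL (fwd ω) q K0 Xc k i s t)

/-- One-sided norms in both directions. -/
def T_GSI : Prop := ∀ (q K0 : ℝ) (Xc : ℤ) (a I k : ℕ) (ω : Env), a ≤ I → GN q K0 Xc a I k ω →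
  GSide (fwd ω) q K0 Xc a I k ∧ GSide (bwd ω) q K0 Xc a I k

/-- Rounding of a point of a segment to the given parity, staying between the end points. -/
def T_RND : Prop := ∀ (x y : ℤ) (l : ℝ), Even (y - x) → 0 ≤ l → l ≤ 1 →
  ∃ z : ℤ, Even (z - x) ∧ min x y ≤ z ∧ z ≤ max x y ∧
    |(z : ℝ) - (x + l * (y - x))| ≤ 2

/-! ## D1: upper and lower bounds of the old environment -/

/-- Merging of three time intervals. -/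
def T_UM3 : Prop := ∀ (P : PS) (q V dl0 dl1 La0 La1 : ℝ) (p p' : ℤ), 0 < q → q < 1 → 0 < V →
  0 < dl0 → 0 < dl1 → 0 ≤ La0 → 0 ≤ La1 → 0 ≤ p → p ≤ p' →
  PB3 P q V dl1 La1 (-p') (-p) → PB3 P q V dl0 La0 (-p) p → PB3 P q V dl1 La1 p p' →
  PB3 P q V (dl0 + 2 * dl1) (La0 + 2 * La1) (-p') p'

/-- Upper bound for all paths in `[-lv (m+1), lv (m+1)]`, `m ≤ k`. -/
def T_U : Prop := ∀ (P : PS) (q K0 : ℝ) (a k m : ℕ), 0 < q → q < 1 → 0 ≤ K0 → 1 ≤ a → a ≤ m →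
  m ≤ k → UL P q K0 k a (-lv a) (lv a) →
  (∀ i, a ≤ i → i ≤ m →
    UL P q K0 k i (-lv (i + 1)) (-lv i) ∧ UL P q K0 k i (lv i) (lv (i + 1))) →
  PB3 P q (16 ^ k) (3 / 1000 * 64 ^ m) (4 * K0 * (101 / 100) ^ (k - m) * 4 ^ m)
    (-lv (m + 1)) (lv (m + 1))

/-- `(O1)` of the insertion lemma. -/
def T_O1 : Prop := ∀ q : ℝ, 0 < q → q < 1 → ∃ C : ℝ, 0 < C ∧
  ∀ (D : Dat) (k : ℕ) (K0 : ℝ) (ω : Env), 1 ≤ k → 1 ≤ K0 → D.q = q → D.n = 8 * 64 ^ (k - 1) →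
    D.w = 16 ^ k → D.f = 4 ^ k → C * K0 ^ 2 ≤ D.K →
    PB3 (fwd ω) q (16 ^ k) (3 / 1000 * 64 ^ k) (4 * K0 * 4 ^ k) (-lv (k + 1)) (lv (k + 1)) →
    O1 D ω

/-- Lower bounds between the levels `-lv m` and `lv m`, `m ≤ k`. -/
def T_LBC : Prop := ∀ q : ℝ, 0 < q → q < 1 → ∃ C : ℝ, 0 < C ∧
  ∀ (P : PS) (K0 : ℝ) (Xc : ℤ) (a k m : ℕ), 1 ≤ K0 → 16 ≤ Xc → 4 * Xc ≤ 4 ^ a → 1 ≤ a →
    a ≤ m → m ≤ k → LL P q K0 Xc k a (-lv a) (lv a) →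
    (∀ i, a ≤ i → i < m →
      LL P q K0 Xc k i (-lv (i + 1)) (-lv i) ∧ LL P q K0 Xc k i (lv i) (lv (i + 1))) →
    LB3 P q (16 ^ k) (C * K0 * (101 / 100) ^ (k - m) * 4 ^ m) (Xc * 16 ^ k) (2 * Xc * 16 ^ m)
      (-lv m) (lv m)

/-- `(O2)` of the insertion lemma. -/
def T_O2 : Prop := ∀ q C₀ : ℝ, 0 < q → q < 1 → 0 < C₀ → ∃ C : ℝ, 0 < C ∧
  ∀ (D : Dat) (k : ℕ) (K0 : ℝ) (Xc : ℤ) (ω : Env), 1 ≤ k → 1 ≤ K0 → 16 ≤ Xc →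
    4 * Xc ≤ 4 ^ k → D.q = q →
    D.n = 8 * 64 ^ (k - 1) → D.w = 16 ^ k → D.f = 4 ^ k → D.X = Xc * 16 ^ k → C * K0 ≤ D.K →
    LB3 (fwd ω) q (16 ^ k) (C₀ * K0 * 4 ^ k) (Xc * 16 ^ k) (2 * Xc * 16 ^ k) (-lv k) (lv k) →
    LL (fwd ω) q K0 Xc k k (-lv (k + 1)) (-lv k) → LL (fwd ω) q K0 Xc k k (lv k) (lv (k + 1)) →
    O2 D ω ∧ LBd D ω (-(256 * D.n)) (256 * D.n)

/-- D1: the norms give `(O1)` and `(O2)`. -/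
def T_D1 : Prop := ∀ q : ℝ, 0 < q → q < 1 → ∃ C : ℝ, 0 < C ∧
  ∀ (c : Cst) (Xc : ℤ) (a I k : ℕ) (ω : Env), c.q = q → 1 ≤ c.K0 → C * c.K0 ^ 2 ≤ c.K →
    16 ≤ Xc → 4 * Xc ≤ 4 ^ a → 1 ≤ a → a ≤ k → k ≤ I → GN c.q c.K0 Xc a I k ω →
    O1 (dk c Xc k) ω ∧ O2 (dk c Xc k) ω ∧
      LBd (dk c Xc k) ω (-(256 * (dk c Xc k).n)) (256 * (dk c Xc k).n)

/-! ## D2: slopes -/

/-- `g` is near optimal on `[s, u]` with deficit at most `c`. -/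
def NO (P : PS) (c : ℝ) (s u : ℤ) (g : ℤ → ℤ) : Prop :=
  IsPath s u g ∧ P.TT (s, g s) (u, g u) - c ≤ P.W s u g

/-- Restriction of near optimality. -/
def T_NOR : Prop := ∀ (P : PS) (c : ℝ) (s r t u : ℤ) (g : ℤ → ℤ), s ≤ r → r ≤ t → t ≤ u →
  NO P c s u g → NO P c r t g

/-- Upper bound for paths from the level `-lv (i+1)` to the core. -/
def T_WB : Prop := ∀ q : ℝ, 0 < q → q < 1 → ∃ C : ℝ, 0 < C ∧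
  ∀ (P : PS) (K0 : ℝ) (a k i : ℕ) (u : ℤ) (g : ℤ → ℤ), 1 ≤ K0 → 1 ≤ a → a ≤ k → a ≤ i →
    -lv a ≤ u → u ≤ lv a → IsPath (-lv (i + 1)) u g → |(g u : ℝ)| ≤ 8 * 16 ^ k →
    UL P q K0 k a (-lv a) (lv a) →
    (∀ m, a ≤ m → m ≤ i → UL P q K0 k m (-lv (m + 1)) (-lv m)) →
    P.W (-lv (i + 1)) u g ≤ mu q * ((u + lv (i + 1) : ℤ) : ℝ)
      - sg q / 2 * ((g (-lv (i + 1)) - g u : ℤ) : ℝ) ^ 2 /
          (1001 / 1000 * ((lv (i + 1) + lv a : ℤ) : ℝ))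
      + C * K0 ^ 2 * (101 / 100) ^ (2 * ds k i) * 4 ^ i

/-- Lower bound from the level `-lv (i+1)` to a site of the core. -/
def T_LW : Prop := ∀ q : ℝ, 0 < q → q < 1 → ∃ C : ℝ, 0 < C ∧
  ∀ (P : PS) (K0 : ℝ) (Xc : ℤ) (a k i : ℕ) (u : Site) (x : ℤ), 1 ≤ K0 → 16 ≤ Xc →
    4 * Xc ≤ 4 ^ a → 1 ≤ a → a ≤ k → a ≤ i → -lv a ≤ u.1 → u.1 ≤ lv a → |(u.2 : ℝ)| ≤ 8 * 16 ^ k →
    2 * |x - u.2| ≤ Xc * 16 ^ i → Reach (-lv (i + 1), x) u → IL P q K0 Xc k a →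
    (∀ m, a ≤ m → m ≤ i → LL P q K0 Xc k m (-lv (m + 1)) (-lv m)) →
    mu q * ((u.1 + lv (i + 1) : ℤ) : ℝ)
      - sg q / 2 * ((x - u.2 : ℤ) : ℝ) ^ 2 / ((lv (i + 1) - lv a : ℤ) : ℝ)
      - C * K0 * (101 / 100) ^ ds k i * 4 ^ i * (1 + |((x - u.2 : ℤ) : ℝ)| / 16 ^ i) ≤
    P.TT (-lv (i + 1), x) u

/-- Real inequality behind the slope recursion (`X`, `Y` displacements in units `16^i`, `Θ` the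
power of `6/5`). -/
def T_SLP : Prop := ∀ q C₁ : ℝ, 0 < q → q < 1 → 0 ≤ C₁ → ∃ C : ℝ, 0 < C ∧
  ∀ K0 Θ X Y : ℝ, 1 ≤ K0 → 1 ≤ Θ → 0 ≤ X → 0 ≤ Y →
    (∀ s : ℝ, (s = 1 ∨ s = -1) → (X - s * Y) ^ 2 / (31501 / 1000) +
      Y ^ 2 / (1001 / 1000 * (65 / 128)) ≤
      X ^ 2 / (32 - 1 / 128) + 2 / sg q * (C₁ * K0 ^ 2 * Θ ^ 2 + C₁ * K0 * Θ * (X + Y)) →
    Y ≤ 3 / 128 * X + C * K0 * Θ)

/-- One step of the slope recursion. -/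
def T_D2S : Prop := ∀ q : ℝ, 0 < q → q < 1 → ∃ C : ℝ, 0 < C ∧
  ∀ (P : PS) (K0 : ℝ) (Xc : ℤ) (a I k i : ℕ) (u : ℤ) (g : ℤ → ℤ), 1 ≤ K0 → 16 ≤ Xc →
    4 * Xc ≤ 4 ^ a → 1 ≤ a → a ≤ k → a + 1 ≤ i → i ≤ I → GSide P q K0 Xc a I k → -lv a ≤ u → u ≤ lv a →
    |(g u : ℝ)| ≤ 8 * 16 ^ k → NO P (4 ^ a) (-lv (i + 1)) u g →
    2 * |g (-lv (i + 1)) - g u| ≤ Xc * 16 ^ i →
    |((g (-lv i) - g u : ℤ) : ℝ)| / 16 ^ i ≤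
      3 / 8 * (|((g (-lv (i + 1)) - g u : ℤ) : ℝ)| / 16 ^ (i + 1)) + C * K0 * (101 / 100) ^ ds k i

/-- The last step: positions in the core. -/
def T_D2C : Prop := ∀ q : ℝ, 0 < q → q < 1 → ∃ C : ℝ, 0 < C ∧
  ∀ (P : PS) (K0 : ℝ) (Xc : ℤ) (a I k : ℕ) (u r : ℤ) (g : ℤ → ℤ), 1 ≤ K0 → 16 ≤ Xc →
    4 * Xc ≤ 4 ^ a → 1 ≤ a → a ≤ k → a ≤ I → GSide P q K0 Xc a I k → -lv a ≤ r → r ≤ u → u ≤ lv a →
    |(g u : ℝ)| ≤ 8 * 16 ^ k → NO P (4 ^ a) (-lv (a + 1)) u g →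
    2 * |g (-lv (a + 1)) - g u| ≤ Xc * 16 ^ a →
    |((g r - g u : ℤ) : ℝ)| / 16 ^ a ≤
      3 * (|((g (-lv (a + 1)) - g u : ℤ) : ℝ)| / 16 ^ (a + 1)) + C * K0 * (101 / 100) ^ ds k a

/-- Solution of the recursion. -/
def T_REC : Prop := ∀ (D : ℕ → ℝ) (C : ℝ) (a I k : ℕ), 0 ≤ C → a ≤ I →
  (∀ i, a + 1 ≤ i → i ≤ I → D i ≤ 3 / 8 * D (i + 1) + C * (101 / 100) ^ ds k i) →
  ∀ i, a + 1 ≤ i → i ≤ I + 1 →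
    D i ≤ (3 / 8) ^ (I + 1 - i) * D (I + 1) + 2 * C * (101 / 100) ^ ds k i

/-- D2: slopes of near geodesics, one side. -/
def T_D2 : Prop := ∀ q : ℝ, 0 < q → q < 1 → ∃ C : ℝ, 0 < C ∧
  ∀ (P : PS) (K0 : ℝ) (Xc : ℤ) (a I k : ℕ) (u : ℤ) (g : ℤ → ℤ), 1 ≤ K0 → 16 ≤ Xc →
    4 * Xc ≤ 4 ^ a → 1 ≤ a → a ≤ k → a ≤ I → GSide P q K0 Xc a I k → -lv a ≤ u → u ≤ lv a → |(g u : ℝ)| ≤ 8 * 16 ^ k →
    NO P (4 ^ a) (-lv (I + 1)) u g →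
    (∀ i, a ≤ i → i ≤ I → 2 * |g (-lv (i + 1)) - g u| ≤ Xc * 16 ^ i) →
    (∀ i, a + 1 ≤ i → i ≤ I + 1 → |((g (-lv i) - g u : ℤ) : ℝ)| / 16 ^ i ≤
      (3 / 8) ^ (I + 1 - i) * (|((g (-lv (I + 1)) - g u : ℤ) : ℝ)| / 16 ^ (I + 1)) +
        C * K0 * (101 / 100) ^ ds k i) ∧
    (∀ r, -lv a ≤ r → r ≤ u → |((g r - g u : ℤ) : ℝ)| ≤ 16 ^ a *
      (3 * (3 / 8) ^ (I - a) * (|((g (-lv (I + 1)) - g u : ℤ) : ℝ)| / 16 ^ (I + 1)) +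
        C * K0 * (101 / 100) ^ ds k a))

/-! ## Two-sided consequences -/

/-- Crude regularity of a path around its position at the time `t1` of the core. -/
structure RG (Xc : ℤ) (a I : ℕ) (t1 : ℤ) (g : ℤ → ℤ) : Prop where
  m : ∀ i, a ≤ i → i ≤ I → 2 * |g (-lv (i + 1)) - g t1| ≤ Xc * 16 ^ i
  p : ∀ i, a ≤ i → i ≤ I → 2 * |g (lv (i + 1)) - g t1| ≤ Xc * 16 ^ i
  c : ∀ r, -lv a ≤ r → r ≤ lv a → 2 * |g r - g t1| ≤ Xc * 16 ^ a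

/-- Displacement at the top scale. -/
noncomputable def Dt (I : ℕ) (t1 : ℤ) (g : ℤ → ℤ) : ℝ :=
  max |((g (-lv (I + 1)) - g t1 : ℤ) : ℝ)| |((g (lv (I + 1)) - g t1 : ℤ) : ℝ)| / 16 ^ (I + 1)

/-- REGE: regularity of near geodesics through the core. -/
def T_REGE : Prop := ∀ q : ℝ, 0 < q → q < 1 → ∃ C : ℝ, 0 < C ∧
  ∀ (K0 : ℝ) (Xc : ℤ) (a I k : ℕ) (ω : Env) (o e : Site) (t1 : ℤ) (g : ℤ → ℤ), 1 ≤ K0 →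
    16 ≤ Xc → 4 * Xc ≤ 4 ^ a → 1 ≤ a → a ≤ k → a ≤ I → o.1 ≤ -lv (I + 1) → lv (I + 1) ≤ e.1 →
    GN q K0 Xc a I k ω → Near ω o e (4 ^ a) g → -lv a ≤ t1 → t1 ≤ lv a →
    |(g t1 : ℝ)| ≤ 8 * 16 ^ k → RG Xc a I t1 g →
    (∀ i, a + 1 ≤ i → i ≤ I + 1 →
      |((g (-lv i) - g t1 : ℤ) : ℝ)| / 16 ^ i ≤
        (3 / 8) ^ (I + 1 - i) * Dt I t1 g + C * K0 * (101 / 100) ^ ds k i ∧
      |((g (lv i) - g t1 : ℤ) : ℝ)| / 16 ^ i ≤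
        (3 / 8) ^ (I + 1 - i) * Dt I t1 g + C * K0 * (101 / 100) ^ ds k i) ∧
    (∀ r, -lv a ≤ r → r ≤ lv a → |((g r - g t1 : ℤ) : ℝ)| ≤ 16 ^ a *
      (3 * (3 / 8) ^ (I - a) * Dt I t1 g + C * K0 * (101 / 100) ^ (k - a))) ∧
    mu q * 64 ^ a - C * 4 ^ a * ((3 / 8) ^ (I - a) * Dt I t1 g + K0 * (101 / 100) ^ (k - a)) ^ 2 ≤
      wt ω (-lv a) (lv a) g

/-- D4: goodness of the environment gives goodness of the outside in the sense of the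
insertion lemma. -/
def T_GD : Prop := ∀ q : ℝ, 0 < q → q < 1 → ∃ C : ℝ, 0 < C ∧
  ∀ (c : Cst) (Xc : ℤ) (a I k : ℕ) (ω : Env) (o e : Site) (t1 : ℤ) (g : ℤ → ℤ), c.q = q →
    1 ≤ c.K0 → C * c.K0 ^ 2 ≤ c.K → C * c.K0 ≤ c.B → 0 ≤ c.H → 16 ≤ Xc →
    4 * Xc ≤ 4 ^ a → 1 ≤ a → a ≤ k → k ≤ I → o.1 ≤ -lv (I + 1) → lv (I + 1) ≤ e.1 → good c Xc a I k ω →
    RF (dk c Xc k) ω o e → Near ω o e 0 g → -lv a ≤ t1 → t1 ≤ lv a →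
    |(g t1 : ℝ)| ≤ 8 * 16 ^ k → RG Xc a I t1 g → (3 / 8) ^ (I - k) * Dt I t1 g ≤ 1 →
    Good (dk c Xc k) ω o e ∧ |(g (-lv (k + 1)) : ℝ)| ≤ c.B * 16 ^ k ∧
      |(g (lv (k + 1)) : ℝ)| ≤ c.B * 16 ^ k

/-- The effect of a change inside the box. -/
def T_DIF : Prop := ∀ (D : Dat) (ω ω' : Env) (o e : Site) (g : ℤ → ℤ), D.Ok → Ends D o e →
  Agree D ω ω' → O1 D ω → LBd D ω' (-(256 * D.n)) (256 * D.n) → Near ω o e 0 g →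
  |(g (-(256 * D.n)) : ℝ)| ≤ D.B * D.w → |(g (256 * D.n) : ℝ)| ≤ D.B * D.w →
  T ω o e - T ω' o e ≤ (2 * D.K * (1 + D.B) + sg D.q * D.B ^ 2) * D.f

/-! ## D3: chain, deterministic part -/

/-- Badness of scale `j` below a good scale `k` is seen in the box of scale `k`. -/
def T_D3A : Prop := ∀ (q K0 : ℝ) (Xc A : ℤ) (a I j k : ℕ) (ω : Env), 0 < q → q < 1 → 1 ≤ K0 →
  1 ≤ a → a ≤ j → j < k → k ≤ I → 4 ≤ A → 256 * K0 ≤ sg q * A → A ≤ Xc →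
  GN q K0 Xc a I k ω → ¬ GN q K0 Xc a I j ω →
  ∃ i, a ≤ i ∧ i < k ∧ VV q K0 Xc (A * 16 ^ k) (16 ^ k) a j i ω

/-- The sites of the slabs of label `i`. -/
def LS (a i : ℕ) : Set Site := {x | (-lv (i + 1) < x.1 ∧ x.1 ≤ -lv i) ∨
  (lv i < x.1 ∧ x.1 ≤ lv (i + 1)) ∨ (i = a ∧ -lv a < x.1 ∧ x.1 ≤ lv a)}

/-- Dependence of the violation events. -/
def T_D3D : Prop := ∀ (q K0 : ℝ) (Xc R V : ℤ) (a j i : ℕ), 1 ≤ a → a ≤ i →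
  DepOn (LS a i ∩ {x | |x.2| < R}) (fun ω => VV q K0 Xc R V a j i ω) ∧
  (LS a i ∩ {x | |x.2| < R}).Finite ∧
  (∀ i', a ≤ i' → i' ≠ i → Disjoint (LS a i) (LS a i'))

end Pool.Agent.H76.ND
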